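import Pool.Agent.Q167.Star.Game

/-!
# Avoider's strategy in the star game

Avoider always claims a free edge whose endpoints have the smallest possible maximum degree.
-/

set_option autoImplicit false

namespace Q167.Star

variable {n : ℕ}

/-- The number of vertices of degree at least `j`. -/
def vc (A : Finset (Sym2 (Fin n))) (j : ℕ) : ℕ := (Finset.univ.filter (fun v => j ≤ deg A v)).card

/-- Upper bounds for the number of vertices of degree at least `j`. -/
def M (n b : ℕ) : ℕ → ℕ
  | 0 => n
  | j + 1 => 2 * (n - 1) * M n b j / (b + 1)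

/-- The larger one of the degrees of the endpoints. -/
def lev (A : Finset (Sym2 (Fin n))) (e : Sym2 (Fin n)) : ℕ :=
  Sym2.lift ⟨fun u v => max (deg A u) (deg A v), fun _ _ => max_comm _ _⟩ e

lemma deg_le_lev {A : Finset (Sym2 (Fin n))} {e : Sym2 (Fin n)} {v : Fin n} (h : v ∈ e) :
    deg A v ≤ lev A e := by
  induction e with
  | _ x y =>
    rw [Sym2.mem_iff] at h
    rcases h with rfl | rfl
    · exact le_max_left _ _
    · exact le_max_right _ _

lemma exists_mem_lev {A : Finset (Sym2 (Fin n))} (e : Sym2 (Fin n)) :
    ∃ v ∈ e, lev A e ≤ deg A v := by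
  induction e with
  | _ x y =>
    rcases le_total (deg A x) (deg A y) with h | h
    · exact ⟨y, by simp, by simp [lev, h]⟩
    · exact ⟨x, by simp, by simp [lev, h]⟩

lemma card_incident_le (v : Fin n) : ((board n).filter (fun e => v ∈ e)).card ≤ n - 1 := by
  have h1 : (board n).filter (fun e => v ∈ e) ⊆
      (Finset.univ.erase v).image (fun w => s(v, w)) := by
    intro e he
    rw [Finset.mem_filter, board, Finset.mem_filter] at he
    obtain ⟨⟨_, hd⟩, hv⟩ := he
    obtain ⟨w, rfl⟩ := hv
    rw [Finset.mem_image]
    refine ⟨w, ?_, rfl⟩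
    rw [Finset.mem_erase]
    refine ⟨?_, Finset.mem_univ _⟩
    rintro rfl
    exact hd (by simp)
  calc _ ≤ _ := Finset.card_le_card h1
    _ ≤ (Finset.univ.erase v).card := Finset.card_image_le
    _ = n - 1 := by rw [Finset.card_erase_of_mem (Finset.mem_univ _), Finset.card_univ,
        Fintype.card_fin]

lemma card_free_le_vc (p : Pos n) (l : ℕ) (h : ∀ e ∈ free p, l ≤ lev p.avoider e) :
    (free p).card ≤ (n - 1) * vc p.avoider l := by
  classical
  have h1 : free p ⊆ (Finset.univ.filter (fun v => l ≤ deg p.avoider v)).biUnion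
      (fun v => (board n).filter (fun e => v ∈ e)) := by
    intro e he
    obtain ⟨v, hv1, hv2⟩ := exists_mem_lev (A := p.avoider) e
    rw [Finset.mem_biUnion]
    refine ⟨v, ?_, ?_⟩
    · rw [Finset.mem_filter]
      exact ⟨Finset.mem_univ _, (h e he).trans hv2⟩
    · rw [Finset.mem_filter]
      exact ⟨(Finset.mem_sdiff.1 he).1, hv1⟩
  calc _ ≤ _ := Finset.card_le_card h1
    _ ≤ vc p.avoider l * (n - 1) := Finset.card_biUnion_le_card_mul _ _ _
        (fun v _ => card_incident_le v)
    _ = _ := mul_comm _ _

lemma vc_anti (A : Finset (Sym2 (Fin n))) {i j : ℕ} (h : i ≤ j) : vc A j ≤ vc A i := by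
  apply Finset.card_le_card
  intro v hv
  rw [Finset.mem_filter] at hv ⊢
  exact ⟨hv.1, h.trans hv.2⟩

lemma deg_union_le (A : Finset (Sym2 (Fin n))) (e : Sym2 (Fin n)) (v : Fin n) :
    deg (A ∪ {e}) v ≤ deg A v + 1 := by
  unfold deg
  rw [Finset.filter_union]
  refine (Finset.card_union_le _ _).trans ?_
  gcongr
  exact (Finset.card_filter_le _ _).trans (by simp)

lemma deg_union_of_notMem (A : Finset (Sym2 (Fin n))) {e : Sym2 (Fin n)} {v : Fin n}
    (h : v ∉ e) : deg (A ∪ {e}) v = deg A v := by
  unfold deg
  rw [Finset.filter_union, Finset.filter_singleton, if_neg h, Finset.union_empty]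

lemma vc_union_le (A : Finset (Sym2 (Fin n))) (e : Sym2 (Fin n)) (j : ℕ) :
    vc (A ∪ {e}) j ≤ vc A j + 2 := by
  classical
  induction e with
  | _ x y =>
    have h1 : Finset.univ.filter (fun v => j ≤ deg (A ∪ {s(x, y)}) v) ⊆
        Finset.univ.filter (fun v => j ≤ deg A v) ∪ {x, y} := by
      intro v hv
      rw [Finset.mem_filter] at hv
      rw [Finset.mem_union, Finset.mem_filter]
      by_cases h : v ∈ s(x, y)
      · right
        rw [Sym2.mem_iff] at h
        simpa using h
      · left
        rw [deg_union_of_notMem A h] at hv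
        exact hv
    refine (Finset.card_le_card h1).trans ((Finset.card_union_le _ _).trans ?_)
    unfold vc
    gcongr
    exact Finset.card_le_two

lemma vc_union_eq (A : Finset (Sym2 (Fin n))) (e : Sym2 (Fin n)) {j : ℕ} (h : lev A e < j) :
    vc (A ∪ {e}) (j + 1) ≤ vc A (j + 1) := by
  apply Finset.card_le_card
  intro v hv
  rw [Finset.mem_filter] at hv ⊢
  refine ⟨hv.1, ?_⟩
  by_cases hve : v ∈ e
  · have h1 := deg_union_le A e v
    have h2 := deg_le_lev (A := A) hve
    omega
  · rw [deg_union_of_notMem A hve] at hv
    exact hv.2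

lemma deg_empty (v : Fin n) : deg (∅ : Finset (Sym2 (Fin n))) v = 0 := by simp [deg]

/-- Avoider wins if `(n - 1) M (k - 1)` is smaller than the size `r` of the last round. -/
theorem avoiderWins_of_lt {k b r : ℕ} (hk : 1 ≤ k) (hr : r ≤ b + 1)
    (hN : (board n).card = 0 ∨ ∃ q, (board n).card = q * (b + 1) + r)
    (h : (n - 1) * M n b (k - 1) < r) : AvoiderWins k n b := by
  classical
  refine avoider_of_region (fun p => ¬ HasStar k p.avoider ∧ ((free p).card = 0 ∨
    ((∃ q, (free p).card = q * (b + 1) + r) ∧ ∀ j, j + 1 < k → vc p.avoider (j + 1) = 0 ∨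
      vc p.avoider (j + 1) * (b + 1) + 2 * (free p).card ≤ 2 * (n - 1) * M n b j))) ?_ ?_ ?_
  · refine ⟨?_, ?_⟩
    · rintro ⟨v, hv⟩
      simp only [deg_empty] at hv
      omega
    · have hfree : free (⟨∅, ∅⟩ : Pos n) = board n := by simp [free]
      rw [hfree]
      rcases hN with hN | hN
      · exact Or.inl hN
      · refine Or.inr ⟨hN, fun j _ => Or.inl ?_⟩
        simp [vc, deg_empty]
  · intro p hp _
    exact hp.1
  · rintro p ⟨hstar, hp⟩ hne
    have hpos : 0 < (free p).card := Finset.card_pos.2 hne
    obtain ⟨⟨q, hq⟩, hinv⟩ : (∃ q, (free p).card = q * (b + 1) + r) ∧ ∀ j, j + 1 < k →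
        vc p.avoider (j + 1) = 0 ∨
      vc p.avoider (j + 1) * (b + 1) + 2 * (free p).card ≤ 2 * (n - 1) * M n b j := by
      rcases hp with hp | hp
      · omega
      · exact hp
    -- the bounds for the number of vertices of large degree
    have hvM : ∀ j, j < k → vc p.avoider j ≤ M n b j := by
      intro j hj
      cases j with
      | zero =>
        unfold vc M
        exact (Finset.card_filter_le _ _).trans (by simp)
      | succ j =>
        rcases hinv j hj with h1 | h1
        · omega
        · rw [M, Nat.le_div_iff_mul_le (by omega)]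
          omega
    obtain ⟨e, he, hmin⟩ := Finset.exists_min_image (free p) (lev p.avoider) hne
    set l := lev p.avoider e with hl
    have hF := card_free_le_vc p l hmin
    have hlk : l + 1 < k := by
      by_contra hcon
      push Not at hcon
      have h1 : vc p.avoider l ≤ vc p.avoider (k - 1) := vc_anti _ (by omega)
      have h2 : vc p.avoider (k - 1) ≤ M n b (k - 1) := hvM _ (by omega)
      have h3 : (n - 1) * vc p.avoider l ≤ (n - 1) * M n b (k - 1) :=
        Nat.mul_le_mul_left _ (h1.trans h2)
      have h4 : r ≤ (free p).card := by rw [hq]; exact Nat.le_add_left _ _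
      omega
    refine ⟨e, he, fun T hT => ?_⟩
    have hA' : ((p.avoid {e}).enforce T).avoider = p.avoider ∪ {e} := rfl
    have hc1 : (free (p.avoid {e})).card + 1 = (free p).card := by
      rw [free_avoid]
      have := Finset.card_sdiff_add_card_eq_card (Finset.singleton_subset_iff.2 he)
      rw [Finset.card_singleton] at this
      exact this
    have hc2 : (free ((p.avoid {e}).enforce T)).card + T.card = (free (p.avoid {e})).card := by
      rw [free_enforce]
      exact Finset.card_sdiff_add_card_eq_card hT.1
    have hTc := hT.2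
    refine ⟨?_, ?_⟩
    · rw [hA']
      rintro ⟨v, hv⟩
      by_cases hve : v ∈ e
      · have h1 := deg_union_le p.avoider e v
        have h2 := deg_le_lev (A := p.avoider) hve
        omega
      · rw [deg_union_of_notMem _ hve] at hv
        exact hstar ⟨v, hv⟩
    · rw [hA']
      cases q with
      | zero =>
        left
        rw [min_eq_right (by omega)] at hTc
        omega
      | succ q =>
        right
        have hbF : b + 1 ≤ (free p).card := by rw [hq, Nat.succ_mul]; omega
        rw [min_eq_left (by omega)] at hTc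
        have hF' : (free ((p.avoid {e}).enforce T)).card + (b + 1) = (free p).card := by omega
        refine ⟨⟨q, by rw [Nat.succ_mul] at hq; omega⟩, fun j hj => ?_⟩
        rcases lt_or_ge l j with hlj | hlj
        · have h1 := vc_union_eq p.avoider e hlj
          rcases hinv j hj with h2 | h2
          · left; omega
          · right
            have h3 := Nat.mul_le_mul_right (b + 1) h1
            omega
        · have h1 := vc_union_le p.avoider e (j + 1)
          right
          have h3 := Nat.mul_le_mul_right (b + 1) h1
          rw [Nat.add_mul] at h3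
          rcases hinv j hj with h2 | h2
          · have h4 : vc p.avoider l ≤ M n b j := (vc_anti _ hlj).trans (hvM j (by omega))
            have h5 := Nat.mul_le_mul_left (n - 1) h4
            rw [h2, Nat.zero_mul] at h3
            have h6 : 2 * (n - 1) * M n b j = 2 * ((n - 1) * M n b j) := by ring
            omega
          · omega

end Q167.Star
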