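import Pool.Agent.Q167.Star.Avoid

/-!
# Enforcer's strategy in the star game

Enforcer looks at the boxes of the vertices of a set `W` (the edges from the vertex to the complement
of `W`). He works in stages; in stage `j` all free edges lie in boxes of vertices of degree at least
`j` in Avoider's graph, and Enforcer empties the boxes of the vertices which are not touched
in this stage, column block by column block.
-/

set_option autoImplicit false

namespace Q167.Star

variable {n : ℕ}

/-- The edge `e` joins a vertex of `A` to a vertex outside `W`. -/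
def InBox (W A : Finset (Fin n)) (e : Sym2 (Fin n)) : Prop := ∃ w ∈ A, ∃ x, x ∉ W ∧ e = s(w, x)

/-- The setup: `W` and the blocks `X 1, ..., X k` are disjoint, each block has at least `y`
vertices. -/
structure Setup (k y : ℕ) (W : Finset (Fin n)) (X : ℕ → Finset (Fin n)) : Prop where
  disj : ∀ i, ∀ x ∈ X i, x ∉ W
  disjX : ∀ i j, ∀ x ∈ X i, x ∈ X j → i = j
  card : ∀ i, 1 ≤ i → i ≤ k → y ≤ (X i).card

/-- The number of edges between `A` and the block `X i` claimed by Enforcer. -/
def cnt (X : ℕ → Finset (Fin n)) (E : Finset (Sym2 (Fin n))) (A : Finset (Fin n)) (i : ℕ) : ℕ :=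
  ((A ×ˢ X i).filter (fun q => s(q.1, q.2) ∈ E)).card

/-- Stage `j`, second phase of the previous stage. -/
def P2 (k : ℕ) (α : ℕ → ℝ) (W : Finset (Fin n)) (X : ℕ → Finset (Fin n)) (j : ℕ)
    (p : Pos n) : Prop :=
  ∃ A ⊆ W, α j ≤ A.card ∧ (∀ w ∈ A, j ≤ deg p.avoider w) ∧
    ∀ w ∈ A, ∀ i, j < i → i ≤ k → ∀ x ∈ X i, s(w, x) ∉ p.enforcer

/-- Stage `j`, first phase. -/
def P1 (k b : ℕ) (α : ℕ → ℝ) (W : Finset (Fin n)) (X : ℕ → Finset (Fin n)) (j c : ℕ)
    (p : Pos n) : Prop :=
  ∃ A ⊆ W, α j ≤ A.card ∧ (∀ w ∈ A, j ≤ deg p.avoider w) ∧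
    (∀ w ∈ A, ∀ i, j + 1 < i → i ≤ k → ∀ x ∈ X i, s(w, x) ∉ p.enforcer) ∧
    (∀ e ∈ free p, InBox W A e) ∧
    cnt X p.enforcer A (j + 1) + c ≤ b * (∑ w ∈ A, (deg p.avoider w - j)) + b

/-- The last stage. -/
def P3 (k : ℕ) (W : Finset (Fin n)) (p : Pos n) : Prop :=
  ∃ A ⊆ W, (∀ w ∈ A, k - 1 ≤ deg p.avoider w) ∧ ∀ e ∈ free p, InBox W A e

/-- One of the stages. -/
def Stage (k b : ℕ) (α : ℕ → ℝ) (W : Finset (Fin n)) (X : ℕ → Finset (Fin n)) (c : ℕ)
    (p : Pos n) : Prop :=
  P3 k W p ∨ (∃ j, j < k ∧ P2 k α W X j p) ∨ (∃ j, j + 1 < k ∧ P1 k b α W X j c p)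

lemma card_avoider_le {A : Finset (Sym2 (Fin n))} {w : Fin n} (Y : Finset (Fin n)) :
    (Y.filter (fun x => s(w, x) ∈ A)).card ≤ deg A w := by
  unfold deg
  apply Finset.card_le_card_of_injOn (fun x => s(w, x))
  · intro x hx
    rw [Finset.mem_coe, Finset.mem_filter] at hx
    rw [Finset.mem_coe, Finset.mem_filter]
    exact ⟨hx.2, by simp⟩
  · intro x _ x' _ h
    simp only [Sym2.eq_iff] at h
    rcases h with ⟨_, h⟩ | ⟨h1, h2⟩
    · exact h
    · exact h2.trans h1

/-- If Enforcer has no edge between `A` and `X i` and there is no vertex of degree `k`, then many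
of these edges are free. -/
lemma card_free_ge {k y : ℕ} {W : Finset (Fin n)} {X : ℕ → Finset (Fin n)} (hS : Setup k y W X)
    (p : Pos n) (hstar : ¬ HasStar k p.avoider) {A : Finset (Fin n)} (hA : A ⊆ W) {i : ℕ}
    (hi1 : 1 ≤ i) (hi2 : i ≤ k) (hE : ∀ w ∈ A, ∀ x ∈ X i, s(w, x) ∉ p.enforcer) :
    A.card * (y - (k - 1)) ≤
      ((A ×ˢ X i).filter (fun q => s(q.1, q.2) ∈ free p)).card := by
  classical
  rw [Finset.card_filter, Finset.sum_product]
  calc A.card * (y - (k - 1)) = ∑ _w ∈ A, (y - (k - 1)) := by rw [Finset.sum_const, smul_eq_mul]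
    _ ≤ ∑ w ∈ A, ∑ x ∈ X i, (if s(w, x) ∈ free p then 1 else 0) := by
        apply Finset.sum_le_sum
        intro w hw
        rw [← Finset.card_filter]
        have h1 : X i ⊆ (X i).filter (fun x => s(w, x) ∈ free p) ∪
            (X i).filter (fun x => s(w, x) ∈ p.avoider) := by
          intro x hx
          rw [Finset.mem_union, Finset.mem_filter, Finset.mem_filter]
          by_cases h : s(w, x) ∈ p.avoider
          · exact Or.inr ⟨hx, h⟩
          · left
            refine ⟨hx, ?_⟩
            unfold free board
            rw [Finset.mem_sdiff, Finset.mem_filter, Finset.mem_union]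
            refine ⟨⟨Finset.mem_univ _, ?_⟩, ?_⟩
            · rw [Sym2.mk_isDiag_iff]
              rintro rfl
              exact hS.disj i w hx (hA hw)
            · rintro (h' | h')
              · exact h h'
              · exact hE w hw x hx h'
        have h2 := (Finset.card_le_card h1).trans (Finset.card_union_le _ _)
        have h3 := hS.card i hi1 hi2
        have h4 : ((X i).filter (fun x => s(w, x) ∈ p.avoider)).card ≤ deg p.avoider w :=
          card_avoider_le _
        have h5 : deg p.avoider w < k := by
          by_contra hcon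
          push Not at hcon
          exact hstar ⟨w, hcon⟩
        omega

lemma card_product_free_le (p : Pos n) {W : Finset (Fin n)} {A Y : Finset (Fin n)} (hA : A ⊆ W)
    (hY : ∀ x ∈ Y, x ∉ W) :
    ((A ×ˢ Y).filter (fun q => s(q.1, q.2) ∈ free p)).card ≤
      ((free p).filter (fun e => ∃ w ∈ A, ∃ x ∈ Y, e = s(w, x))).card := by
  classical
  apply Finset.card_le_card_of_injOn (fun q => s(q.1, q.2))
  · rintro ⟨w, x⟩ hq
    rw [Finset.mem_coe, Finset.mem_filter, Finset.mem_product] at hq
    rw [Finset.mem_coe, Finset.mem_filter]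
    exact ⟨hq.2, w, hq.1.1, x, hq.1.2, rfl⟩
  · rintro ⟨w, x⟩ hq ⟨w', x'⟩ hq' h
    rw [Finset.mem_coe, Finset.mem_filter, Finset.mem_product] at hq hq'
    simp only [Sym2.eq_iff] at h
    rcases h with ⟨h1, h2⟩ | ⟨h1, h2⟩
    · rw [h1, h2]
    · exfalso
      have h3 : w ∈ W := hA hq.1.1
      have h4 : x' ∉ W := hY _ hq'.1.2
      exact h4 (h1 ▸ h3)

section micro

variable {k y b : ℕ} {α : ℕ → ℝ} {W : Finset (Fin n)} {X : ℕ → Finset (Fin n)}

/-- Numerical condition for passing to the next stage. -/
def NextStage (k y b : ℕ) (α : ℕ → ℝ) : Prop :=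
  ∀ j, j + 1 < k → ∀ a t : ℕ, α j ≤ a → t ≤ a →
    (a - t) * (y - j) ≤ b * (t * (k - 1 - j)) + b → α (j + 1) ≤ t

lemma P2.claim {j : ℕ} {p : Pos n} {e : Sym2 (Fin n)} {A : Finset (Fin n)} (hS : Setup k y W X)
    (hAW : A ⊆ W) (hα : α j ≤ A.card) (hdeg : ∀ w ∈ A, j ≤ deg p.avoider w)
    (hE : ∀ w ∈ A, ∀ i, j < i → i ≤ k → ∀ x ∈ X i, s(w, x) ∉ p.enforcer)
    (he : ¬ InBox W A e) : P2 k α W X j (p.enforce {e}) := by
  refine ⟨A, hAW, hα, hdeg, fun w hw i hi1 hi2 x hx => ?_⟩
  simp only [Pos.enforce, Finset.mem_union, Finset.mem_singleton, not_or]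
  refine ⟨hE w hw i hi1 hi2 x hx, fun h => he ⟨w, hw, x, hS.disj i x hx, h.symm⟩⟩

lemma cnt_claim (E : Finset (Sym2 (Fin n))) {A : Finset (Fin n)} (hAW : A ⊆ W)
    (hX : ∀ i, ∀ x ∈ X i, x ∉ W) (e : Sym2 (Fin n)) (i : ℕ) :
    cnt X (E ∪ {e}) A i ≤ cnt X E A i + 1 := by
  classical
  unfold cnt
  have h1 : (A ×ˢ X i).filter (fun q => s(q.1, q.2) ∈ E ∪ {e}) =
      (A ×ˢ X i).filter (fun q => s(q.1, q.2) ∈ E) ∪
      (A ×ˢ X i).filter (fun q => s(q.1, q.2) = e) := by
    rw [← Finset.filter_or]
    apply Finset.filter_congr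
    intro q _
    rw [Finset.mem_union, Finset.mem_singleton]
  rw [h1]
  refine (Finset.card_union_le _ _).trans ?_
  gcongr
  rw [Finset.card_le_one]
  rintro ⟨w, x⟩ hq ⟨w', x'⟩ hq'
  rw [Finset.mem_filter, Finset.mem_product] at hq hq'
  have h := hq.2.trans hq'.2.symm
  simp only [Sym2.eq_iff] at h
  rcases h with ⟨h1, h2⟩ | ⟨h1, h2⟩
  · rw [h1, h2]
  · exfalso
    have h3 : w ∈ W := hAW hq.1.1
    have h4 : x' ∉ W := hX _ _ hq'.1.2
    exact h4 (h1 ▸ h3)

/-- Enforcer can claim one edge and stay in one of the stages. -/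
lemma micro_step (hS : Setup k y W X) (hnext : NextStage k y b α) (hyk : k ≤ y)
    {c : ℕ} (hc : c + 1 ≤ b) (p : Pos n) (hstar : ¬ HasStar k p.avoider)
    (hne : (free p).Nonempty) (h : Stage k b α W X (c + 1) p) :
    ∃ e ∈ free p, Stage k b α W X c (p.enforce {e}) := by
  classical
  have hfree : ∀ e, free (p.enforce {e}) ⊆ free p := by
    intro e
    rw [free_enforce]
    exact Finset.sdiff_subset
  -- the two kinds of stages, by downward induction on `j`
  have key : ∀ d j, j + d + 1 = k → (P2 k α W X j p → ∃ e ∈ free p,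
      Stage k b α W X c (p.enforce {e})) := by
    intro d
    induction d with
    | zero =>
      rintro j hj ⟨A, hAW, hα, hdeg, hE⟩
      by_cases hex : ∃ e ∈ free p, ¬ InBox W A e
      · obtain ⟨e, he, hbox⟩ := hex
        exact ⟨e, he, Or.inr (Or.inl ⟨j, by omega, P2.claim hS hAW hα hdeg hE hbox⟩)⟩
      · push Not at hex
        obtain ⟨e, he⟩ := hne
        refine ⟨e, he, Or.inl ⟨A, hAW, fun w hw => ?_, fun f hf => hex f (hfree e hf)⟩⟩
        have := hdeg w hw
        simp only [Pos.enforce]
        omega
    | succ d ih =>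
      rintro j hj ⟨A, hAW, hα, hdeg, hE⟩
      by_cases hex : ∃ e ∈ free p, ¬ InBox W A e
      · obtain ⟨e, he, hbox⟩ := hex
        exact ⟨e, he, Or.inr (Or.inl ⟨j, by omega, P2.claim hS hAW hα hdeg hE hbox⟩)⟩
      · push Not at hex
        have hcnt0 : cnt X p.enforcer A (j + 1) = 0 := by
          unfold cnt
          rw [Finset.card_eq_zero, Finset.filter_eq_empty_iff]
          rintro ⟨w, x⟩ hq
          rw [Finset.mem_product] at hq
          exact hE w hq.1 (j + 1) (by omega) (by omega) x hq.2
        by_cases hex2 : ∃ w ∈ A, deg p.avoider w < j + 1 ∧ ∃ x ∈ X (j + 1), s(w, x) ∈ free p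
        · obtain ⟨w, hw, hdw, x, hx, he⟩ := hex2
          refine ⟨s(w, x), he, Or.inr (Or.inr ⟨j, by omega, A, hAW, hα, hdeg,
            fun w' hw' i hi1 hi2 x' hx' => ?_, fun f hf => hex f (hfree _ hf), ?_⟩)⟩
          · simp only [Pos.enforce, Finset.mem_union, Finset.mem_singleton, not_or]
            refine ⟨hE w' hw' i (by omega) hi2 x' hx', fun h => ?_⟩
            rw [Sym2.eq_iff] at h
            rcases h with ⟨h1, h2⟩ | ⟨h1, h2⟩
            · rw [h2] at hx'
              have := hS.disjX i (j + 1) x hx' hx
              omega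
            · exact hS.disj _ _ hx (h1 ▸ hAW hw')
          · have h1 := cnt_claim (W := W) (X := X) p.enforcer hAW hS.disj s(w, x) (j + 1)
            simp only [Pos.enforce]
            have h2 : 0 ≤ b * ∑ w ∈ A, (deg p.avoider w - j) := Nat.zero_le _
            omega
        · push Not at hex2
          -- pass to the next stage
          apply ih (j + 1) (by omega)
          refine ⟨A.filter (fun w => j + 1 ≤ deg p.avoider w),
            (Finset.filter_subset _ _).trans hAW, ?_, fun w hw => (Finset.mem_filter.1 hw).2,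
            fun w hw i hi1 hi2 x hx => hE w (Finset.mem_filter.1 hw).1 i (by omega) hi2 x hx⟩
          apply hnext j (by omega) A.card _ hα (Finset.card_filter_le _ _)
          -- all edges between the untouched vertices and the block are claimed by Avoider
          have h1 : ∀ w ∈ A.filter (fun w => ¬ (j + 1 ≤ deg p.avoider w)), y ≤ j := by
            intro w hw
            rw [Finset.mem_filter] at hw
            have h2 : X (j + 1) ⊆ (X (j + 1)).filter (fun x => s(w, x) ∈ p.avoider) := by
              intro x hx
              rw [Finset.mem_filter]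
              refine ⟨hx, ?_⟩
              by_contra hcon
              apply hex2 w hw.1 (by omega) x hx
              unfold free board
              rw [Finset.mem_sdiff, Finset.mem_filter, Finset.mem_union]
              refine ⟨⟨Finset.mem_univ _, ?_⟩, ?_⟩
              · rw [Sym2.mk_isDiag_iff]
                rintro rfl
                exact hS.disj _ _ hx (hAW hw.1)
              · rintro (h' | h')
                · exact hcon h'
                · exact hE w hw.1 (j + 1) (by omega) (by omega) x hx h'
            have h3 := Finset.card_le_card h2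
            have h4 : ((X (j + 1)).filter (fun x => s(w, x) ∈ p.avoider)).card
              ≤ deg p.avoider w := card_avoider_le _
            have h5 := hS.card (j + 1) (by omega) (by omega)
            omega
          have h2 : A.filter (fun w => ¬ (j + 1 ≤ deg p.avoider w)) = ∅ := by
            rw [Finset.eq_empty_iff_forall_notMem]
            intro w hw
            have := h1 w hw
            omega
          have h3 := Finset.card_filter_add_card_filter_not (s := A)
            (fun w => j + 1 ≤ deg p.avoider w)
          rw [h2, Finset.card_empty] at h3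
          have h4 : A.card - (A.filter (fun w => j + 1 ≤ deg p.avoider w)).card = 0 := by omega
          rw [h4]
          simp
  rcases h with h | ⟨j, hj, h⟩ | ⟨j, hj, A, hAW, hα, hdeg, hE, hbox, hcnt⟩
  · obtain ⟨A, hAW, hdeg, hbox⟩ := h
    obtain ⟨e, he⟩ := hne
    exact ⟨e, he, Or.inl ⟨A, hAW, hdeg, fun f hf => hbox f (hfree e hf)⟩⟩
  · exact key (k - 1 - j) j (by omega) h
  · by_cases hex2 : ∃ w ∈ A, deg p.avoider w < j + 1 ∧ ∃ x ∈ X (j + 1), s(w, x) ∈ free p
    · obtain ⟨w, hw, hdw, x, hx, he⟩ := hex2
      refine ⟨s(w, x), he, Or.inr (Or.inr ⟨j, by omega, A, hAW, hα, hdeg,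
        fun w' hw' i hi1 hi2 x' hx' => ?_, fun f hf => hbox f (hfree _ hf), ?_⟩)⟩
      · simp only [Pos.enforce, Finset.mem_union, Finset.mem_singleton, not_or]
        refine ⟨hE w' hw' i hi1 hi2 x' hx', fun h => ?_⟩
        rw [Sym2.eq_iff] at h
        rcases h with ⟨h1, h2⟩ | ⟨h1, h2⟩
        · rw [h2] at hx'
          have := hS.disjX i (j + 1) x hx' hx
          omega
        · exact hS.disj _ _ hx (h1 ▸ hAW hw')
      · have h1 := cnt_claim (W := W) (X := X) p.enforcer hAW hS.disj s(w, x) (j + 1)
        simp only [Pos.enforce]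
        omega
    · push Not at hex2
      apply key (k - 1 - (j + 1)) (j + 1) (by omega)
      set T := A.filter (fun w => j + 1 ≤ deg p.avoider w) with hT
      set R := A.filter (fun w => ¬ (j + 1 ≤ deg p.avoider w)) with hR
      have hcard := Finset.card_filter_add_card_filter_not (s := A)
        (fun w => j + 1 ≤ deg p.avoider w)
      rw [← hT, ← hR] at hcard
      refine ⟨T, (Finset.filter_subset _ _).trans hAW, ?_,
        fun w hw => (Finset.mem_filter.1 hw).2,
        fun w hw i hi1 hi2 x hx => hE w (Finset.mem_filter.1 hw).1 i hi1 hi2 x hx⟩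
      apply hnext j (by omega) A.card _ hα (Finset.card_filter_le _ _)
      -- the untouched vertices
      change (A.card - T.card) * (y - j) ≤ b * (T.card * (k - 1 - j)) + b
      have hRT : A.card - T.card = R.card := by omega
      rw [hRT]
      have h1 : R.card * (y - j) ≤ cnt X p.enforcer A (j + 1) := by
        have h2 : ∑ w ∈ R, (y - j) ≤ ∑ w ∈ R, ((X (j + 1)).filter
            (fun x => s(w, x) ∈ p.enforcer)).card := by
          apply Finset.sum_le_sum
          intro w hw
          rw [hR, Finset.mem_filter] at hw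
          have h3 : X (j + 1) ⊆ (X (j + 1)).filter (fun x => s(w, x) ∈ p.enforcer) ∪
              (X (j + 1)).filter (fun x => s(w, x) ∈ p.avoider) := by
            intro x hx
            rw [Finset.mem_union, Finset.mem_filter, Finset.mem_filter]
            by_contra hcon
            push Not at hcon
            apply hex2 w hw.1 (by omega) x hx
            unfold free board
            rw [Finset.mem_sdiff, Finset.mem_filter, Finset.mem_union]
            refine ⟨⟨Finset.mem_univ _, ?_⟩, ?_⟩
            · rw [Sym2.mk_isDiag_iff]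
              rintro rfl
              exact hS.disj _ _ hx (hAW hw.1)
            · rintro (h' | h')
              · exact hcon.2 hx h'
              · exact hcon.1 hx h'
          have h4 := (Finset.card_le_card h3).trans (Finset.card_union_le _ _)
          have h5 : ((X (j + 1)).filter (fun x => s(w, x) ∈ p.avoider)).card
            ≤ deg p.avoider w := card_avoider_le _
          have h6 := hS.card (j + 1) (by omega) (by omega)
          have h7 : deg p.avoider w ≤ j := by
            have := hw.2
            omega
          omega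
        rw [Finset.sum_const, smul_eq_mul] at h2
        refine h2.trans ?_
        unfold cnt
        rw [Finset.card_filter, Finset.sum_product]
        simp only [← Finset.card_filter]
        exact Finset.sum_le_sum_of_subset (Finset.filter_subset _ _)
      have h2 : ∑ w ∈ A, (deg p.avoider w - j) ≤ T.card * (k - 1 - j) := by
        calc ∑ w ∈ A, (deg p.avoider w - j) = ∑ w ∈ T, (deg p.avoider w - j) := by
              symm
              apply Finset.sum_subset (Finset.filter_subset _ _)
              intro w hw hwT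
              rw [Finset.mem_filter, not_and] at hwT
              have := hwT hw
              omega
          _ ≤ ∑ _w ∈ T, (k - 1 - j) := by
              apply Finset.sum_le_sum
              intro w _
              have : deg p.avoider w < k := by
                by_contra hcon
                push Not at hcon
                exact hstar ⟨w, hcon⟩
              omega
          _ = T.card * (k - 1 - j) := by rw [Finset.sum_const, smul_eq_mul]
      have h3 : b * (∑ w ∈ A, (deg p.avoider w - j)) ≤ b * (T.card * (k - 1 - j)) :=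
        Nat.mul_le_mul_left _ h2
      omega

/-- Enforcer's whole turn. -/
lemma macro_step (hS : Setup k y W X) (hnext : NextStage k y b α) (hyk : k ≤ y) (c : ℕ)
    (hc : c ≤ b) : ∀ (p : Pos n), ¬ HasStar k p.avoider → c ≤ (free p).card →
    Stage k b α W X c p → ∃ T ⊆ free p, T.card = c ∧ Stage k b α W X 0 (p.enforce T) := by
  classical
  induction c with
  | zero =>
    intro p _ _ h
    refine ⟨∅, by simp, by simp, ?_⟩
    simpa [Pos.enforce] using h
  | succ c ih =>
    intro p hstar hcard h
    have hne : (free p).Nonempty := by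
      rw [← Finset.card_pos]; omega
    obtain ⟨e, he, h1⟩ := micro_step hS hnext hyk hc p hstar hne h
    have h2 : (free (p.enforce {e})).card + 1 = (free p).card := by
      rw [free_enforce]
      have := Finset.card_sdiff_add_card_eq_card (Finset.singleton_subset_iff.2 he)
      rw [Finset.card_singleton] at this
      exact this
    obtain ⟨T, hT1, hT2, hT3⟩ := ih (by omega) (p.enforce {e}) hstar (by omega) h1
    rw [free_enforce] at hT1
    have heT : e ∉ T := by
      intro h3
      have := hT1 h3
      simp at this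
    refine ⟨insert e T, ?_, ?_, ?_⟩
    · intro f hf
      rw [Finset.mem_insert] at hf
      rcases hf with rfl | hf
      · exact he
      · exact (Finset.mem_sdiff.1 (hT1 hf)).1
    · rw [Finset.card_insert_of_notMem heT, hT2]
    · have h4 : (p.enforce {e}).enforce T = p.enforce (insert e T) := by
        simp only [Pos.enforce, Finset.union_assoc]
        congr 2
      rw [← h4]
      exact hT3

end micro

end Q167.Star
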