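import Pool.Agent.Q167.Star.Enforce

/-!
# Enforcer wins the star game, under numerical conditions
-/

set_option autoImplicit false

namespace Q167.Star

variable {n : ℕ}

lemma deg_union_of_mem (A : Finset (Sym2 (Fin n))) {e : Sym2 (Fin n)} {v : Fin n} (he : e ∉ A)
    (h : v ∈ e) : deg (A ∪ {e}) v = deg A v + 1 := by
  unfold deg
  rw [Finset.filter_union, Finset.filter_singleton, if_pos h, Finset.card_union_of_disjoint,
    Finset.card_singleton]
  rw [Finset.disjoint_singleton_right, Finset.mem_filter]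
  exact fun h' => he h'.1

lemma deg_le_union (A B : Finset (Sym2 (Fin n))) (v : Fin n) : deg A v ≤ deg (A ∪ B) v := by
  unfold deg
  exact Finset.card_le_card (Finset.filter_subset_filter _ Finset.subset_union_left)

lemma HasStar.union {k : ℕ} {A : Finset (Sym2 (Fin n))} (h : HasStar k A)
    (B : Finset (Sym2 (Fin n))) : HasStar k (A ∪ B) := by
  obtain ⟨v, hv⟩ := h
  exact ⟨v, hv.trans (deg_le_union A B v)⟩

variable {k y b r : ℕ} {α : ℕ → ℝ} {W : Finset (Fin n)} {X : ℕ → Finset (Fin n)}

/-- In the last round the edge claimed by Avoider completes a star. -/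
lemma last_round (hS : Setup k y W X) (hk : 1 ≤ k) {p : Pos n} (hstar : ¬ HasStar k p.avoider)
    (hF : (free p).card = r)
    (hfin1 : ∀ j, j + 1 < k → ∀ a : ℕ, α j ≤ a → r < a * (y - (k - 1)))
    (hfin2 : ∀ a : ℕ, α (k - 1) ≤ a → r ≤ a * (y - (k - 1)))
    (h : Stage k b α W X 0 p) {e : Sym2 (Fin n)} (he : e ∈ free p) :
    HasStar k (p.avoid {e}).avoider := by
  classical
  have heA : e ∉ p.avoider := by
    intro h'
    have := (Finset.mem_sdiff.1 he).2
    exact this (Finset.mem_union_left _ h')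
  have hkey : ∀ A : Finset (Fin n), A ⊆ W → (∀ w ∈ A, ∀ x ∈ X k, s(w, x) ∉ p.enforcer) →
      A.card * (y - (k - 1)) ≤
        ((free p).filter (fun e => ∃ w ∈ A, ∃ x ∈ X k, e = s(w, x))).card := by
    intro A hA hE
    exact (card_free_ge hS p hstar hA hk le_rfl hE).trans
      (card_product_free_le p hA (fun x hx => hS.disj k x hx))
  have hkey' : ∀ A : Finset (Fin n), A ⊆ W → (∀ w ∈ A, ∀ x ∈ X k, s(w, x) ∉ p.enforcer) →
      A.card * (y - (k - 1)) ≤ r := by
    intro A hA hE
    rw [← hF]
    exact (hkey A hA hE).trans (Finset.card_filter_le _ _)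
  rcases h with ⟨A, hAW, hdeg, hbox⟩ | ⟨j, hj, A, hAW, hα, hdeg, hE⟩ |
    ⟨j, hj, A, hAW, hα, hdeg, hE, hbox, hcnt⟩
  · obtain ⟨w, hw, x, hx, rfl⟩ := hbox e he
    refine ⟨w, ?_⟩
    have h1 := deg_union_of_mem p.avoider heA (v := w) (by simp)
    have h2 := hdeg w hw
    simp only [Pos.avoid]
    omega
  · have h1 := hkey' A hAW (fun w hw x hx => hE w hw k hj le_rfl x hx)
    rcases Nat.lt_or_ge (j + 1) k with h2 | h2
    · have := hfin1 j h2 A.card hα
      omega
    · have hjk : j = k - 1 := by omega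
      subst hjk
      have h3 := hfin2 A.card hα
      have h4 := hkey A hAW (fun w hw x hx => hE w hw k hj le_rfl x hx)
      have h5 : (free p).filter (fun e => ∃ w ∈ A, ∃ x ∈ X k, e = s(w, x)) = free p := by
        apply Finset.eq_of_subset_of_card_le (Finset.filter_subset _ _)
        omega
      rw [← h5, Finset.mem_filter] at he
      obtain ⟨_, w, hw, x, hx, rfl⟩ := he
      refine ⟨w, ?_⟩
      have h1 := deg_union_of_mem p.avoider heA (v := w) (by simp)
      have h2 := hdeg w hw
      simp only [Pos.avoid]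
      omega
  · have h1 := hkey' A hAW (fun w hw x hx => hE w hw k hj le_rfl x hx)
    have := hfin1 j hj A.card hα
    omega

/-- Avoider's turn. -/
lemma avoid_step {p : Pos n} {e : Sym2 (Fin n)} (he : e ∈ free p)
    (hstar : ¬ HasStar k (p.avoid {e}).avoider) (hAW : ∀ i, ∀ x ∈ X i, x ∉ W)
    (h : Stage k b α W X 0 p) : Stage k b α W X b (p.avoid {e}) := by
  classical
  have heA : e ∉ p.avoider := by
    intro h'
    have := (Finset.mem_sdiff.1 he).2
    exact this (Finset.mem_union_left _ h')
  have hfree : free (p.avoid {e}) ⊆ free p := by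
    rw [free_avoid]; exact Finset.sdiff_subset
  rcases h with ⟨A, hAW, hdeg, hbox⟩ | ⟨j, hj, A, hAW, hα, hdeg, hE⟩ |
    ⟨j, hj, A, hAW, hα, hdeg, hE, hbox, hcnt⟩
  · exfalso
    apply hstar
    obtain ⟨w, hw, x, hx, rfl⟩ := hbox e he
    refine ⟨w, ?_⟩
    have h1 := deg_union_of_mem p.avoider heA (v := w) (by simp)
    have h2 := hdeg w hw
    simp only [Pos.avoid]
    omega
  · refine Or.inr (Or.inl ⟨j, hj, A, hAW, hα, fun w hw => ?_, hE⟩)
    exact (hdeg w hw).trans (deg_le_union _ _ _)
  · refine Or.inr (Or.inr ⟨j, hj, A, hAW, hα, fun w hw => ?_, hE,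
      fun f hf => hbox f (hfree hf), ?_⟩)
    · exact (hdeg w hw).trans (deg_le_union _ _ _)
    · obtain ⟨w, hw, x, hx, rfl⟩ := hbox e he
      have h1 : ∑ v ∈ A, (deg p.avoider v - j) < ∑ v ∈ A, (deg (p.avoider ∪ {s(w, x)}) v - j) := by
        apply Finset.sum_lt_sum
        · intro v _
          have := deg_le_union p.avoider {s(w, x)} v
          omega
        · refine ⟨w, hw, ?_⟩
          have h1 := deg_union_of_mem p.avoider heA (v := w) (by simp)
          have h2 := hdeg w hw
          omega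
      have h2 : b * (∑ v ∈ A, (deg p.avoider v - j) + 1) ≤
          b * ∑ v ∈ A, (deg (p.avoider ∪ {s(w, x)}) v - j) := Nat.mul_le_mul_left _ h1
      rw [Nat.mul_add, Nat.mul_one] at h2
      simp only [Pos.avoid]
      omega

/-- Enforcer wins, under numerical conditions. -/
theorem enforcerWins_of (hS : Setup k y W X) (hnext : NextStage k y b α) (hyk : k ≤ y)
    (hk : 1 ≤ k) (hr1 : 1 ≤ r)
    (hN : ∃ q, (board n).card = q * (b + 1) + r) (hα0 : α 0 ≤ W.card)
    (hfin1 : ∀ j, j + 1 < k → ∀ a : ℕ, α j ≤ a → r < a * (y - (k - 1)))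
    (hfin2 : ∀ a : ℕ, α (k - 1) ≤ a → r ≤ a * (y - (k - 1))) : EnforcerWins k n b := by
  classical
  refine enforcer_of_region (fun p => HasStar k p.avoider ∨
    ((∃ q, (free p).card = q * (b + 1) + r) ∧ Stage k b α W X 0 p)) ?_ ?_ ?_
  · right
    have hfree : free (⟨∅, ∅⟩ : Pos n) = board n := by simp [free]
    rw [hfree]
    refine ⟨hN, Or.inr (Or.inl ⟨0, by omega, W, subset_rfl, hα0, fun _ _ => Nat.zero_le _,
      fun _ _ _ _ _ _ _ => by simp⟩)⟩
  · rintro p (h | ⟨⟨q, hq⟩, _⟩) h0
    · exact h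
    · rw [h0, Finset.card_empty] at hq
      omega
  · rintro p hp e he
    by_cases hstar' : HasStar k (p.avoid {e}).avoider
    · obtain ⟨T, hT⟩ := exists_legal b (free (p.avoid {e}))
      exact ⟨T, hT, Or.inl hstar'⟩
    have hstar : ¬ HasStar k p.avoider := fun h => hstar' (h.union {e})
    obtain ⟨⟨q, hq⟩, hst⟩ : (∃ q, (free p).card = q * (b + 1) + r) ∧ Stage k b α W X 0 p := by
      rcases hp with hp | hp
      · exact absurd hp hstar
      · exact hp
    cases q with
    | zero =>
      exact absurd (last_round hS hk hstar (by omega) hfin1 hfin2 hst he) hstar'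
    | succ q =>
      have hc1 : (free (p.avoid {e})).card + 1 = (free p).card := by
        rw [free_avoid]
        have := Finset.card_sdiff_add_card_eq_card (Finset.singleton_subset_iff.2 he)
        rw [Finset.card_singleton] at this
        exact this
      have hq2 : (free p).card = q * (b + 1) + (b + 1) + r := by rw [hq, Nat.succ_mul]
      have hb : b ≤ (free (p.avoid {e})).card := by omega
      obtain ⟨T, hT1, hT2, hT3⟩ := macro_step hS hnext hyk b le_rfl (p.avoid {e}) hstar' hb
        (avoid_step he hstar' hS.disj hst)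
      refine ⟨T, ⟨hT1, by rw [hT2, min_eq_left hb]⟩, Or.inr ⟨⟨q, ?_⟩, hT3⟩⟩
      rw [free_enforce]
      have h3 := Finset.card_sdiff_add_card_eq_card hT1
      omega

/-- A concrete setup: `W` is an initial segment, the blocks are intervals. -/
lemma exists_setup (k y w : ℕ) (h : w + k * y ≤ n) :
    ∃ (W : Finset (Fin n)) (X : ℕ → Finset (Fin n)), Setup k y W X ∧ W.card = w := by
  classical
  refine ⟨Finset.univ.filter (fun v => (v : ℕ) < w),
    fun i => if 1 ≤ i ∧ i ≤ k then
      Finset.univ.filter (fun v => w + (i - 1) * y ≤ (v : ℕ) ∧ (v : ℕ) < w + i * y) else ∅,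
    ⟨?_, ?_, ?_⟩, ?_⟩
  · intro i x hx
    by_cases hi : 1 ≤ i ∧ i ≤ k
    · rw [if_pos hi, Finset.mem_filter] at hx
      rw [Finset.mem_filter]
      have := hx.2.1
      have h2 : 0 ≤ (i - 1) * y := Nat.zero_le _
      omega
    · rw [if_neg hi] at hx
      simp at hx
  · intro i j x hx hx'
    by_cases hi : 1 ≤ i ∧ i ≤ k
    · by_cases hj : 1 ≤ j ∧ j ≤ k
      · rw [if_pos hi, Finset.mem_filter] at hx
        rw [if_pos hj, Finset.mem_filter] at hx'
        by_contra hne
        rcases Nat.lt_or_gt_of_ne hne with h1 | h1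
        · have h2 : i * y ≤ (j - 1) * y := Nat.mul_le_mul_right _ (by omega)
          omega
        · have h2 : j * y ≤ (i - 1) * y := Nat.mul_le_mul_right _ (by omega)
          omega
      · rw [if_neg hj] at hx'
        simp at hx'
    · rw [if_neg hi] at hx
      simp at hx
  · intro i hi1 hi2
    rw [if_pos ⟨hi1, hi2⟩]
    have h1 : i * y ≤ k * y := Nat.mul_le_mul_right _ hi2
    have h2 : i * y = (i - 1) * y + y := by
      obtain ⟨m, rfl⟩ : ∃ m, i = m + 1 := ⟨i - 1, by omega⟩
      rw [Nat.add_sub_cancel, Nat.succ_mul]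
    have h3 : Set.InjOn (fun t : Fin y => (⟨w + (i - 1) * y + t, by have := t.2; omega⟩ : Fin n))
        (Finset.univ : Finset (Fin y)) := by
      intro a _ c _ hac
      have := congrArg Fin.val hac
      simp only at this
      exact Fin.ext (by omega)
    have h4 := Finset.card_le_card_of_injOn (s := (Finset.univ : Finset (Fin y)))
      (t := Finset.univ.filter (fun v : Fin n => w + (i - 1) * y ≤ (v : ℕ) ∧ (v : ℕ) < w + i * y))
      (fun t : Fin y => (⟨w + (i - 1) * y + t, by have := t.2; omega⟩ : Fin n)) (by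
        intro t _
        rw [Finset.mem_coe, Finset.mem_filter]
        have := t.2
        refine ⟨Finset.mem_univ _, ?_, ?_⟩
        · simp only; omega
        · simp only; omega) h3
    rw [Finset.card_univ, Fintype.card_fin] at h4
    exact h4
  · have h1 : w ≤ n := le_trans (Nat.le_add_right _ _) h
    rw [Fin.card_filter_val_lt]
    omega

end Q167.Star
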