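import Mathlib

/-!
# The strict `(1:b)` Avoider-Enforcer star game on the complete graph
-/

set_option autoImplicit false

namespace Q167.Star

/-- The board: the edges of the complete graph on `Fin n`. -/
def board (n : ℕ) : Finset (Sym2 (Fin n)) := Finset.univ.filter (fun e => ¬ e.IsDiag)

/-- A position: the edges claimed by Avoider and the edges claimed by Enforcer so far. -/
structure Pos (n : ℕ) where
  avoider : Finset (Sym2 (Fin n))
  enforcer : Finset (Sym2 (Fin n))

/-- The unclaimed edges. -/
def free {n : ℕ} (p : Pos n) : Finset (Sym2 (Fin n)) := board n \ (p.avoider ∪ p.enforcer)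

/-- The degree of the vertex `v` in the graph with edge set `A`. -/
def deg {n : ℕ} (A : Finset (Sym2 (Fin n))) (v : Fin n) : ℕ := (A.filter (fun e => v ∈ e)).card

/-- The graph with edge set `A` contains a star with `k` edges. -/
def HasStar {n : ℕ} (k : ℕ) (A : Finset (Sym2 (Fin n))) : Prop := ∃ v, k ≤ deg A v

/-- A legal turn of a player with bias `m` when the free edges are `F`: the player claims exactly
`m` free edges, or all of them if there are fewer. -/
def Legal {n : ℕ} (m : ℕ) (F T : Finset (Sym2 (Fin n))) : Prop := T ⊆ F ∧ T.card = min m F.card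

/-- The position after Avoider has claimed `A` in the position `p`. -/
def Pos.avoid {n : ℕ} (p : Pos n) (A : Finset (Sym2 (Fin n))) : Pos n := ⟨p.avoider ∪ A, p.enforcer⟩

/-- The position after Enforcer has claimed `T` in the position `p`. -/
def Pos.enforce {n : ℕ} (p : Pos n) (T : Finset (Sym2 (Fin n))) : Pos n :=
  ⟨p.avoider, p.enforcer ∪ T⟩

/-- The position after `i` rounds when in round `j + 1` Avoider claims `A j` and then Enforcer
claims `T j`. -/
def play {n : ℕ} (A T : ℕ → Finset (Sym2 (Fin n))) : ℕ → Pos n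
  | 0 => ⟨∅, ∅⟩
  | i + 1 => ((play A T i).avoid (A i)).enforce (T i)

/-- In the play given by `A`, `T` all turns are legal in the strict `(1:b)` game. -/
def LegalPlay {n : ℕ} (b : ℕ) (A T : ℕ → Finset (Sym2 (Fin n))) : Prop :=
  ∀ i, Legal 1 (free (play A T i)) (A i) ∧ Legal b (free ((play A T i).avoid (A i))) (T i)

/-- Avoider wins the `(1:b)` `k`-star game on `K_n`: he has a strategy `σ` such that every legal play
in which he follows `σ` ends with a graph of Avoider without a star with `k` edges. -/
def AvoiderWins (k n b : ℕ) : Prop :=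
  ∃ σ : Pos n → Finset (Sym2 (Fin n)), (∀ p, Legal 1 (free p) (σ p)) ∧
    ∀ A T : ℕ → Finset (Sym2 (Fin n)), LegalPlay b A T → (∀ i, A i = σ (play A T i)) →
      ∃ i, free (play A T i) = ∅ ∧ ¬ HasStar k (play A T i).avoider

/-- Enforcer wins the `(1:b)` `k`-star game on `K_n`: he has a strategy `ρ` such that every legal
play in which he follows `ρ` ends with a graph of Avoider which contains a star with `k` edges. -/
def EnforcerWins (k n b : ℕ) : Prop :=
  ∃ ρ : Pos n → Finset (Sym2 (Fin n)), (∀ p, Legal b (free p) (ρ p)) ∧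
    ∀ A T : ℕ → Finset (Sym2 (Fin n)), LegalPlay b A T →
      (∀ i, T i = ρ ((play A T i).avoid (A i))) →
      ∃ i, free (play A T i) = ∅ ∧ HasStar k (play A T i).avoider

/-- The upper threshold bias: the smallest integer such that Avoider wins for every larger `b`. -/
noncomputable def fPlus (k n : ℕ) : ℕ := sInf {t : ℕ | ∀ b : ℕ, t < b → AvoiderWins k n b}

/-- The lower threshold bias: the largest integer such that Enforcer wins for every `b` with
`1 ≤ b` up to this integer. -/
noncomputable def fMinus (k n : ℕ) : ℕ :=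
  sSup {t : ℕ | ∀ b : ℕ, 1 ≤ b → b ≤ t → EnforcerWins k n b}

/-! ## Basic facts -/

variable {n : ℕ}

lemma free_avoid (p : Pos n) (A : Finset (Sym2 (Fin n))) : free (p.avoid A) = free p \ A := by
  unfold free Pos.avoid
  ext e
  simp only [Finset.mem_sdiff, Finset.mem_union]
  tauto

lemma free_enforce (p : Pos n) (T : Finset (Sym2 (Fin n))) : free (p.enforce T) = free p \ T := by
  unfold free Pos.enforce
  ext e
  simp only [Finset.mem_sdiff, Finset.mem_union]
  tauto

lemma exists_legal (m : ℕ) (F : Finset (Sym2 (Fin n))) : ∃ T, Legal m F T := by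
  obtain ⟨T, hT, hc⟩ := Finset.exists_subset_card_eq (s := F) (n := min m F.card)
    (min_le_right _ _)
  exact ⟨T, hT, hc⟩

lemma Legal.eq_empty {m : ℕ} {F T : Finset (Sym2 (Fin n))} (h : Legal m F T) (hF : F = ∅) :
    T = ∅ := by
  subst hF
  exact Finset.subset_empty.1 h.1

lemma card_free_lt {A T : ℕ → Finset (Sym2 (Fin n))} {b : ℕ} (h : LegalPlay b A T) (i : ℕ)
    (hne : (free (play A T i)).Nonempty) :
    (free (play A T (i + 1))).card < (free (play A T i)).card := by
  rw [play, free_enforce, free_avoid]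
  have h1 := (h i).1
  have h2 : 1 ≤ (free (play A T i)).card := Finset.card_pos.2 hne
  have h3 := h1.2
  rw [min_eq_left h2] at h3
  have h4 := Finset.card_sdiff_add_card_eq_card h1.1
  have h5 : ((free (play A T i) \ A i) \ T i).card ≤ (free (play A T i) \ A i).card :=
    Finset.card_le_card Finset.sdiff_subset
  omega

/-- Every legal play ends. -/
lemma exists_end {A T : ℕ → Finset (Sym2 (Fin n))} {b : ℕ} (h : LegalPlay b A T) :
    ∃ i, free (play A T i) = ∅ := by
  by_contra hcon
  push Not at hcon
  have key : ∀ i, (free (play A T i)).card + i ≤ (free (play A T 0)).card := by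
    intro i
    induction i with
    | zero => simp
    | succ i ih =>
      have := card_free_lt h i (hcon i)
      omega
  have := key ((free (play A T 0)).card + 1)
  omega

lemma play_const {A T : ℕ → Finset (Sym2 (Fin n))} {b : ℕ} (h : LegalPlay b A T) {i : ℕ}
    (hi : free (play A T i) = ∅) (d : ℕ) : play A T (i + d) = play A T i := by
  induction d with
  | zero => rfl
  | succ d ih =>
    rw [← add_assoc, play, ih]
    have h1 := (h (i + d)).1
    rw [ih] at h1
    have h2 := h1.eq_empty hi
    have h3 := (h (i + d)).2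
    rw [ih, h2] at h3
    have h4 : free ((play A T i).avoid ∅) = ∅ := by rw [free_avoid, hi]; simp
    have h5 := h3.eq_empty h4
    rw [h2, h5]
    simp [Pos.avoid, Pos.enforce]

/-- The players do not both win. -/
lemma not_both {k n b : ℕ} (hA : AvoiderWins k n b) (hE : EnforcerWins k n b) : False := by
  obtain ⟨σ, hσ, hσw⟩ := hA
  obtain ⟨ρ, hρ, hρw⟩ := hE
  -- the play in which both follow their strategies
  let Q : ℕ → Pos n := fun i => Nat.rec ⟨∅, ∅⟩ (fun _ q => (q.avoid (σ q)).enforce
    (ρ (q.avoid (σ q)))) i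
  let A : ℕ → Finset (Sym2 (Fin n)) := fun i => σ (Q i)
  let T : ℕ → Finset (Sym2 (Fin n)) := fun i => ρ ((Q i).avoid (σ (Q i)))
  have hQ : ∀ i, play A T i = Q i := by
    intro i
    induction i with
    | zero => rfl
    | succ i ih => rw [play, ih]
  have hL : LegalPlay b A T := by
    intro i
    rw [hQ]
    exact ⟨hσ _, hρ _⟩
  obtain ⟨i, hi, hi'⟩ := hσw A T hL (fun i => by rw [hQ])
  obtain ⟨j, hj, hj'⟩ := hρw A T hL (fun i => by rw [hQ])
  rcases le_total i j with h | h
  · obtain ⟨d, rfl⟩ := Nat.exists_eq_add_of_le h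
    rw [play_const hL hi] at hj'
    exact hi' hj'
  · obtain ⟨d, rfl⟩ := Nat.exists_eq_add_of_le h
    rw [play_const hL hj] at hi'
    exact hi' hj'

/-! ## Winning regions -/

lemma avoider_of_region {k n b : ℕ} (S : Pos n → Prop) (h0 : S ⟨∅, ∅⟩)
    (hend : ∀ p, S p → free p = ∅ → ¬ HasStar k p.avoider)
    (hstep : ∀ p, S p → (free p).Nonempty → ∃ e ∈ free p, ∀ T : Finset (Sym2 (Fin n)),
      Legal b (free (p.avoid {e})) T → S ((p.avoid {e}).enforce T)) :
    AvoiderWins k n b := by
  classical
  have hstep' : ∀ p : Pos n, ∃ A : Finset (Sym2 (Fin n)), Legal 1 (free p) A ∧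
      (S p → ∀ T : Finset (Sym2 (Fin n)), Legal b (free (p.avoid A)) T →
        S ((p.avoid A).enforce T)) := by
    intro p
    by_cases hne : (free p).Nonempty
    · by_cases hS : S p
      · obtain ⟨e, he, h⟩ := hstep p hS hne
        refine ⟨{e}, ⟨Finset.singleton_subset_iff.2 he, ?_⟩, fun _ => h⟩
        have hc : 1 ≤ (free p).card := Finset.card_pos.2 hne
        rw [Finset.card_singleton]; omega
      · obtain ⟨A, hA⟩ := exists_legal 1 (free p)
        exact ⟨A, hA, fun h => absurd h hS⟩
    · rw [Finset.not_nonempty_iff_eq_empty] at hne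
      refine ⟨∅, ⟨by simp, by simp [hne]⟩, fun hS T hT => ?_⟩
      have h4 : free (p.avoid ∅) = ∅ := by rw [free_avoid, hne]; simp
      rw [hT.eq_empty h4]
      simpa [Pos.avoid, Pos.enforce] using hS
  choose σ hσ1 hσ2 using hstep'
  refine ⟨σ, hσ1, fun A T hL hA => ?_⟩
  have hinv : ∀ i, S (play A T i) := by
    intro i
    induction i with
    | zero => exact h0
    | succ i ih =>
      rw [play]
      have h1 := hσ2 _ ih (T i)
      rw [← hA i] at h1
      exact h1 (hL i).2
  obtain ⟨i, hi⟩ := exists_end hL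
  exact ⟨i, hi, hend _ (hinv i) hi⟩

lemma enforcer_of_region {k n b : ℕ} (S : Pos n → Prop) (h0 : S ⟨∅, ∅⟩)
    (hend : ∀ p, S p → free p = ∅ → HasStar k p.avoider)
    (hstep : ∀ p, S p → ∀ e ∈ free p, ∃ T : Finset (Sym2 (Fin n)),
      Legal b (free (p.avoid {e})) T ∧ S ((p.avoid {e}).enforce T)) :
    EnforcerWins k n b := by
  classical
  have hstep' : ∀ q : Pos n, ∃ T : Finset (Sym2 (Fin n)), Legal b (free q) T ∧
      ((∃ T', Legal b (free q) T' ∧ S (q.enforce T')) → S (q.enforce T)) := by
    intro q
    by_cases h : ∃ T', Legal b (free q) T' ∧ S (q.enforce T')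
    · obtain ⟨T, hT1, hT2⟩ := h
      exact ⟨T, hT1, fun _ => hT2⟩
    · obtain ⟨T, hT⟩ := exists_legal b (free q)
      exact ⟨T, hT, fun h' => absurd h' h⟩
  choose ρ hρ1 hρ2 using hstep'
  refine ⟨ρ, hρ1, fun A T hL hT => ?_⟩
  have hinv : ∀ i, S (play A T i) := by
    intro i
    induction i with
    | zero => exact h0
    | succ i ih =>
      rw [play, hT i]
      apply hρ2
      by_cases hne : (free (play A T i)).Nonempty
      · have h1 := (hL i).1
        have hc : 1 ≤ (free (play A T i)).card := Finset.card_pos.2 hne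
        have h2 := h1.2
        rw [min_eq_left hc, Finset.card_eq_one] at h2
        obtain ⟨e, he⟩ := h2
        rw [he]
        exact hstep _ ih e (h1.1 (by rw [he]; simp))
      · rw [Finset.not_nonempty_iff_eq_empty] at hne
        have h1 := (hL i).1.eq_empty hne
        rw [h1]
        have h4 : free ((play A T i).avoid ∅) = ∅ := by rw [free_avoid, hne]; simp
        refine ⟨∅, ⟨by simp, by rw [h4]; simp⟩, ?_⟩
        simpa [Pos.avoid, Pos.enforce] using ih
  obtain ⟨i, hi⟩ := exists_end hL
  exact ⟨i, hi, hend _ (hinv i) hi⟩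

end Q167.Star
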