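import Pool.Agent.Q167.Star.EnforceMain

/-!
# The numerical conditions of the star game
-/

set_option autoImplicit false

namespace Q167.Star

variable {n : ℕ}

/-- The number of edges of the complete graph. -/
lemma card_board (n : ℕ) : (board n).card = n * (n - 1) / 2 := by
  classical
  have h1 : board n = (⊤ : SimpleGraph (Fin n)).edgeFinset := by
    ext e
    rw [board, Finset.mem_filter, SimpleGraph.mem_edgeFinset]
    induction e with
    | _ x y => simp
  rw [h1, SimpleGraph.card_edgeFinset_top_eq_card_choose_two, Fintype.card_fin, Nat.choose_two_right]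

/-- The shrinking factor of the number of good vertices. -/
noncomputable def beta (k n b : ℕ) : ℝ := (n : ℝ) / (4 * (n + 2 * k ^ 2 * b))

lemma beta_pos {k b : ℕ} (hn : 0 < n) : 0 < beta k n b := by
  have : (0 : ℝ) < n := by exact_mod_cast hn
  unfold beta
  positivity

lemma beta_le {k b : ℕ} (hn : 0 < n) : beta k n b ≤ 1 / 4 := by
  have h : (0 : ℝ) < n := by exact_mod_cast hn
  unfold beta
  rw [div_le_div_iff₀ (by positivity) (by norm_num)]
  have : (0 : ℝ) ≤ 2 * k ^ 2 * b := by positivity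
  nlinarith

lemma beta_eq {k b : ℕ} (hn : 0 < n) (hk : 0 < k) :
    beta k n b = (n : ℝ) / (4 * k) / 2 / (2 * ((n : ℝ) / (4 * k)) + b * k) := by
  have h : (0 : ℝ) < n := by exact_mod_cast hn
  have hk' : (0 : ℝ) < k := by exact_mod_cast hk
  have hb0 : (0 : ℝ) ≤ b := by positivity
  unfold beta
  have h1 : (0 : ℝ) < n + 2 * k ^ 2 * b := by positivity
  have h2 : 2 * ((n : ℝ) / (4 * k)) + b * k = (n + 2 * k ^ 2 * b) / (2 * k) := by
    field_simp
    ring
  rw [h2]
  field_simp

/-- Enforcer wins under two numerical conditions. -/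
theorem enforcer_num {k b r : ℕ} (hk : 2 ≤ k) (hn : 4 * k * (k + 1) ≤ n) (hr1 : 1 ≤ r)
    (hN : ∃ q, (board n).card = q * (b + 1) + r)
    (hA : 2 * (b : ℝ) ≤ ((n : ℝ) / (4 * k)) ^ 2 * beta k n b ^ (k - 2))
    (hC : (r : ℝ) ≤ ((n : ℝ) / (4 * k)) ^ 2 * beta k n b ^ (k - 1)) : EnforcerWins k n b := by
  have hkpos : (0 : ℝ) < k := by exact_mod_cast (by omega : 0 < k)
  have hk2 : (2 : ℝ) ≤ k := by exact_mod_cast hk
  have hnR : 4 * (k : ℝ) * (k + 1) ≤ n := by exact_mod_cast hn
  have hn0 : 0 < n := lt_of_lt_of_le (by positivity) hn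
  have hnpos : (0 : ℝ) < n := by exact_mod_cast hn0
  set y : ℕ := n / (2 * k) with hy
  set w : ℕ := n / 2 with hw
  set g : ℝ := (n : ℝ) / (4 * k) with hg
  have hgpos : 0 < g := by rw [hg]; positivity
  have hgk : (k : ℝ) + 1 ≤ g := by
    rw [hg, le_div_iff₀ (by positivity)]
    nlinarith
  have hbpos := beta_pos (k := k) (b := b) hn0
  have hble := beta_le (k := k) (b := b) hn0
  -- bounds for y
  have hy1 : (y : ℝ) ≤ 2 * g := by
    have h1 : y * (2 * k) ≤ n := Nat.div_mul_le_self _ _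
    have h2 : (y : ℝ) * (2 * k) ≤ n := by exact_mod_cast h1
    rw [hg]
    rw [show 2 * ((n : ℝ) / (4 * k)) = n / (2 * k) by field_simp; ring, le_div_iff₀ (by positivity)]
    exact h2
  have hy2 : 2 * g - 1 < y := by
    have h1 : n < (y + 1) * (2 * k) := by
      have := Nat.lt_div_mul_add (a := n) (b := 2 * k) (by omega)
      rw [← hy] at this
      nlinarith
    have h2 : (n : ℝ) < ((y : ℝ) + 1) * (2 * k) := by exact_mod_cast h1
    have h3 : 2 * g < y + 1 := by
      rw [hg]
      rw [show 2 * ((n : ℝ) / (4 * k)) = n / (2 * k) by field_simp; ring, div_lt_iff₀ (by positivity)]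
      exact h2
    linarith
  have hy3 : g + k < (y : ℝ) := by linarith
  have hyk : k + 1 ≤ y := by
    have : (k : ℝ) < y := by linarith
    have : k < y := by exact_mod_cast this
    omega
  have hwk : w + k * y ≤ n := by
    have h1 : w * 2 ≤ n := Nat.div_mul_le_self _ _
    have h2 : y * (2 * k) ≤ n := Nat.div_mul_le_self _ _
    nlinarith
  obtain ⟨W, X, hS, hW⟩ := exists_setup (n := n) k y w hwk
  set α : ℕ → ℝ := fun j => g * beta k n b ^ j with hα
  have hαpos : ∀ j, 0 < α j := fun j => by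
    simp only [hα]; positivity
  have hpow : ∀ i j : ℕ, i ≤ j → beta k n b ^ j ≤ beta k n b ^ i := fun i j hij =>
    pow_le_pow_of_le_one hbpos.le (by linarith) hij
  have hαanti : ∀ i j : ℕ, i ≤ j → α j ≤ α i := fun i j hij => by
    simp only [hα]
    exact mul_le_mul_of_nonneg_left (hpow i j hij) hgpos.le
  have hα2 : 2 * (b : ℝ) ≤ g * α (k - 2) := by
    simp only [hα]; nlinarith
  -- a (y - c) is large
  have hcast : ∀ j : ℕ, j ≤ k → ((y - j : ℕ) : ℝ) = (y : ℝ) - j := fun j hj => by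
    rw [Nat.cast_sub (by omega)]
  apply enforcerWins_of hS (α := α) (r := r) (hyk := by omega) (hk := by omega) (hr1 := hr1)
    (hN := hN)
  · -- next stage
    intro j hj a t ha hta hineq
    have hjk : (j : ℝ) + 2 ≤ k := by exact_mod_cast (by omega : j + 2 ≤ k)
    have hj0 : (0 : ℝ) ≤ j := by positivity
    have h1 : ((a : ℝ) - t) * ((y : ℝ) - j) ≤ b * (t * (k - 1 - j)) + b := by
      have h2 : (((a - t) * (y - j) : ℕ) : ℝ) ≤ ((b * (t * (k - 1 - j)) + b : ℕ) : ℝ) := by
        exact_mod_cast hineq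
      push_cast at h2
      rw [Nat.cast_sub hta, hcast j (by omega), show k - 1 - j = k - (1 + j) by omega,
        Nat.cast_sub (by omega : 1 + j ≤ k)] at h2
      push_cast at h2
      linarith
    have hαj : 2 * (b : ℝ) ≤ g * a := by
      have := hαanti j (k - 2) (by omega)
      nlinarith
    have hapos : (0 : ℝ) < a := lt_of_lt_of_le (hαpos j) ha
    have ht0 : (0 : ℝ) ≤ t := by positivity
    have hb0 : (0 : ℝ) ≤ b := by positivity
    have hyj : g < (y : ℝ) - j := by linarith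
    -- t (y - j + b (k - 1 - j)) ≥ a (y - j) - b ≥ a (y - j) / 2
    have h3 : (a : ℝ) * ((y : ℝ) - j) / 2 ≤ t * ((y : ℝ) - j + b * (k - 1 - j)) := by
      nlinarith
    have h4 : (a : ℝ) * g / 2 ≤ t * (2 * g + b * k) := by
      have h5 : (a : ℝ) * g / 2 ≤ (a : ℝ) * ((y : ℝ) - j) / 2 := by nlinarith
      have h6 : t * ((y : ℝ) - j + b * (k - 1 - j)) ≤ t * (2 * g + b * k) := by
        apply mul_le_mul_of_nonneg_left _ ht0
        nlinarith
      linarith
    have h7 : (0 : ℝ) < 2 * g + b * k := by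
      have : (0 : ℝ) ≤ b * k := by positivity
      linarith
    have h8 : beta k n b = g / 2 / (2 * g + b * k) := beta_eq (by omega) (by omega)
    have h9 : a * beta k n b ≤ t := by
      rw [h8, mul_div_assoc', div_le_iff₀ h7]
      linarith
    calc α (j + 1) = α j * beta k n b := by simp only [hα]; ring
      _ ≤ a * beta k n b := mul_le_mul_of_nonneg_right ha hbpos.le
      _ ≤ t := h9
  · -- α 0
    rw [hW]
    simp only [hα, pow_zero, mul_one]
    have h1 : n ≤ 2 * w + 1 := by omega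
    have h2 : (n : ℝ) ≤ 2 * w + 1 := by exact_mod_cast h1
    have h3 : g ≤ n / 8 := by
      rw [hg, div_le_div_iff₀ (by positivity) (by norm_num)]
      nlinarith
    have h4 : (24 : ℝ) ≤ n := by nlinarith
    linarith
  · intro j hj a ha
    have hapos : (0 : ℝ) < a := lt_of_lt_of_le (hαpos j) ha
    have h1 : α (k - 1) ≤ a := (hαanti j (k - 1) (by omega)).trans ha
    have h2 : (r : ℝ) ≤ g * α (k - 1) := by simp only [hα]; nlinarith
    have h3 : (r : ℝ) < a * ((y - (k - 1) : ℕ) : ℝ) := by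
      rw [hcast (k - 1) (by omega), Nat.cast_sub (by omega : 1 ≤ k)]
      push_cast
      nlinarith
    exact_mod_cast h3
  · intro a ha
    have hapos : (0 : ℝ) < a := lt_of_lt_of_le (hαpos _) ha
    have h2 : (r : ℝ) ≤ g * α (k - 1) := by simp only [hα]; nlinarith
    have h3 : (r : ℝ) ≤ a * ((y - (k - 1) : ℕ) : ℝ) := by
      rw [hcast (k - 1) (by omega), Nat.cast_sub (by omega : 1 ≤ k)]
      push_cast
      nlinarith
    exact_mod_cast h3

/-- If `n ≤ b` then the shrinking factor is at least `n / (κ b)`. -/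
lemma beta_ge {k b : ℕ} (hn : 0 < n) (hb : n ≤ b) :
    (n : ℝ) / ((4 + 8 * k ^ 2) * b) ≤ beta k n b := by
  have h : (0 : ℝ) < n := by exact_mod_cast hn
  have hbR : (n : ℝ) ≤ b := by exact_mod_cast hb
  have hbpos : (0 : ℝ) < b := lt_of_lt_of_le h hbR
  unfold beta
  apply div_le_div_of_nonneg_left h.le (by positivity)
  nlinarith

/-- If `b ≤ n` then the shrinking factor is at least `1 / κ`. -/
lemma beta_ge' {k b : ℕ} (hn : 0 < n) (hb : b ≤ n) :
    1 / (4 + 8 * (k : ℝ) ^ 2) ≤ beta k n b := by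
  have h : (0 : ℝ) < n := by exact_mod_cast hn
  have hbR : (b : ℝ) ≤ n := by exact_mod_cast hb
  unfold beta
  rw [div_le_div_iff₀ (by positivity) (by positivity)]
  have : (k : ℝ) ^ 2 * b ≤ k ^ 2 * n := mul_le_mul_of_nonneg_left hbR (by positivity)
  nlinarith

/-- `M j` is at most `n (2 n / (b + 1)) ^ j`. -/
lemma M_mul_le (n b j : ℕ) : M n b j * (b + 1) ^ j ≤ n * (2 * n) ^ j := by
  induction j with
  | zero => simp [M]
  | succ j ih =>
    have h1 : M n b (j + 1) * (b + 1) ≤ 2 * (n - 1) * M n b j := by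
      rw [M]; exact Nat.div_mul_le_self _ _
    have h2 : 2 * (n - 1) * M n b j ≤ 2 * n * M n b j := by
      gcongr; omega
    calc M n b (j + 1) * (b + 1) ^ (j + 1) = (M n b (j + 1) * (b + 1)) * (b + 1) ^ j := by ring
      _ ≤ (2 * n * M n b j) * (b + 1) ^ j := Nat.mul_le_mul_right _ (h1.trans h2)
      _ = 2 * n * (M n b j * (b + 1) ^ j) := by ring
      _ ≤ 2 * n * (n * (2 * n) ^ j) := by gcongr
      _ = n * (2 * n) ^ (j + 1) := by ring

/-- Avoider wins if `n ^ (k + 1) 2 ^ (k - 1) < r (b + 1) ^ (k - 1)`. -/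
theorem avoider_num {k b r : ℕ} (hk : 1 ≤ k) (hr : r ≤ b + 1)
    (hN : (board n).card = 0 ∨ ∃ q, (board n).card = q * (b + 1) + r)
    (h : n * (n * (2 * n) ^ (k - 1)) < r * (b + 1) ^ (k - 1)) : AvoiderWins k n b := by
  apply avoiderWins_of_lt hk hr hN
  have h1 := M_mul_le n b (k - 1)
  have h2 : (n - 1) * M n b (k - 1) * (b + 1) ^ (k - 1) < r * (b + 1) ^ (k - 1) := by
    calc (n - 1) * M n b (k - 1) * (b + 1) ^ (k - 1)
        = (n - 1) * (M n b (k - 1) * (b + 1) ^ (k - 1)) := by ring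
      _ ≤ n * (n * (2 * n) ^ (k - 1)) := Nat.mul_le_mul (by omega) h1
      _ < _ := h
  exact lt_of_mul_lt_mul_right h2 (Nat.zero_le _)

/-- Avoider wins if `n ^ k 2 ^ (k - 1) < (b + 1) ^ (k - 1)`. -/
theorem avoider_num' {k b : ℕ} (hk : 1 ≤ k)
    (h : n * (2 * n) ^ (k - 1) < (b + 1) ^ (k - 1)) : AvoiderWins k n b := by
  have h1 := M_mul_le n b (k - 1)
  have h2 : M n b (k - 1) = 0 := by
    by_contra hne
    have h3 : 1 * (b + 1) ^ (k - 1) ≤ M n b (k - 1) * (b + 1) ^ (k - 1) := by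
      gcongr; omega
    omega
  rcases Nat.eq_zero_or_pos (board n).card with h0 | hpos
  · exact avoiderWins_of_lt (r := 1) hk (by omega) (Or.inl h0) (by rw [h2]; simp)
  · -- r - 1 is the remainder of N - 1
    set N := (board n).card with hNdef
    have hdm := Nat.div_add_mod (N - 1) (b + 1)
    have hlt := Nat.mod_lt (N - 1) (Nat.succ_pos b)
    refine avoiderWins_of_lt (r := (N - 1) % (b + 1) + 1) hk ?_
      (Or.inr ⟨(N - 1) / (b + 1), ?_⟩) ?_
    · have : (N - 1) % (b + 1) < b + 1 := hlt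
      omega
    · rw [← hNdef, mul_comm]
      omega
    · rw [h2]
      simp

end Q167.Star
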