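import Pool.Agent.Q167.Star.Numeric

/-!
# The orders of magnitude of the two threshold biases
-/

set_option autoImplicit false

namespace Q167.Star

open Filter

/-- `n ^ (1 / K)` tends to infinity. -/
lemma exists_root {K : ℕ} (hK : 0 < K) (x₀ : ℝ) :
    ∃ n₀ : ℕ, ∀ n : ℕ, n₀ ≤ n → x₀ ≤ (n : ℝ) ^ ((K : ℝ)⁻¹) := by
  have h1 : Tendsto (fun x : ℝ => x ^ ((K : ℝ)⁻¹)) atTop atTop :=
    tendsto_rpow_atTop (by positivity)
  have h2 : Tendsto (fun n : ℕ => (n : ℝ) ^ ((K : ℝ)⁻¹)) atTop atTop :=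
    h1.comp tendsto_natCast_atTop_atTop
  obtain ⟨n₀, hn₀⟩ := (tendsto_atTop.1 h2 x₀).exists_forall_of_atTop
  exact ⟨n₀, hn₀⟩

lemma root_pow {K : ℕ} (hK : 0 < K) (n : ℕ) : ((n : ℝ) ^ ((K : ℝ)⁻¹)) ^ K = n :=
  Real.rpow_inv_natCast_pow (by positivity) hK.ne'

lemma cast_card_board {n : ℕ} (hn : 8 ≤ n) :
    (n : ℝ) ^ 2 / 4 + 1 ≤ (board n).card ∧ ((board n).card : ℝ) ≤ (n : ℝ) ^ 2 / 2 := by
  have h1 : 2 * (board n).card = n * (n - 1) := by
    rw [card_board]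
    exact Nat.mul_div_cancel' (Nat.even_mul_pred_self n).two_dvd
  have h2 : 2 * ((board n).card : ℝ) = n * (n - 1) := by
    have : ((2 * (board n).card : ℕ) : ℝ) = ((n * (n - 1) : ℕ) : ℝ) := by rw [h1]
    push_cast at this
    rw [Nat.cast_sub (by omega)] at this
    push_cast at this
    exact this
  have h3 : (8 : ℝ) ≤ n := by exact_mod_cast hn
  constructor <;> nlinarith

/-- For suitable `b` of order `n ^ (k / (k - 1))` Enforcer wins. -/
lemma enforcer_large {k : ℕ} (hk : 3 ≤ k) : ∃ c : ℝ, 0 < c ∧ ∃ x₀ : ℝ, ∀ (n : ℕ) (x : ℝ),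
    x₀ ≤ x → x ^ (k - 1) = n → ∃ b : ℕ, c * (n * x) ≤ b ∧ EnforcerWins k n b := by
  set κ : ℝ := 4 + 8 * (k : ℝ) ^ 2 with hκ
  have hκ1 : (1 : ℝ) ≤ κ := by rw [hκ]; nlinarith [sq_nonneg (k : ℝ)]
  have hκpos : (0 : ℝ) < κ := by linarith
  set γ : ℝ := 1 / (4 * (k : ℝ)) with hγ
  have hk3 : (3 : ℝ) ≤ k := by exact_mod_cast hk
  have hγpos : 0 < γ := by rw [hγ]; positivity
  have hγ1 : γ ≤ 1 := by
    rw [hγ, div_le_one (by positivity)]
    linarith
  have hκp : (1 : ℝ) ≤ κ ^ (k - 2) := one_le_pow₀ hκ1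
  set c : ℝ := γ ^ 2 / κ ^ (k - 2) with hc
  have hcpos : 0 < c := by rw [hc]; positivity
  have hc1 : c ≤ 1 := by
    rw [hc, div_le_one (by positivity)]
    have : γ ^ 2 ≤ 1 := pow_le_one₀ hγpos.le hγ1
    linarith
  refine ⟨c / 16, by positivity, 16 * κ / c + 4 * k * (k + 1) + 32 / c + 8, fun n x hx hxn => ?_⟩
  have hA0 : 0 ≤ 16 * κ / c := by positivity
  have hB0 : 0 ≤ 32 / c := by positivity
  have hC0 : (0 : ℝ) ≤ 4 * k * (k + 1) := by positivity
  have hx8 : 8 ≤ x := by linarith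
  have hxpos : 0 < x := by linarith
  have hxκ : 16 * κ / c ≤ x := by linarith
  have hxκ' : 16 * κ ≤ c * x := by
    rw [div_le_iff₀ hcpos] at hxκ
    linarith
  have hx32 : 32 / c ≤ x := by linarith
  have hx32' : 32 ≤ c * x := by
    rw [div_le_iff₀ hcpos] at hx32
    linarith
  have hnx : x ^ 2 ≤ n := by
    rw [← hxn]
    exact pow_le_pow_right₀ (by linarith) (by omega)
  have hxn' : x ≤ n := by nlinarith
  have hnpos : (0 : ℝ) < n := by linarith
  have hn0 : 0 < n := by exact_mod_cast hnpos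
  have hn8 : 8 ≤ n := by
    have : (8 : ℝ) ≤ n := by linarith
    exact_mod_cast this
  have hnk : 4 * k * (k + 1) ≤ n := by
    have : 4 * (k : ℝ) * (k + 1) ≤ n := by linarith
    exact_mod_cast this
  obtain ⟨hN1, hN2⟩ := cast_card_board hn8
  set N : ℕ := (board n).card with hN
  have hNpos : 1 ≤ N := by
    have : (1 : ℝ) ≤ N := by nlinarith
    exact_mod_cast this
  -- the number of rounds
  set m : ℕ := ⌈(n : ℝ) / (c * x)⌉₊ with hm
  have hcx : 0 < c * x := by positivity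
  have hm1 : (n : ℝ) / (c * x) ≤ m := Nat.le_ceil _
  have hm2 : (m : ℝ) ≤ 2 * n / (c * x) := by
    have h1 : (m : ℝ) < n / (c * x) + 1 := Nat.ceil_lt_add_one (by positivity)
    have h2 : 1 ≤ (n : ℝ) / (c * x) := by
      rw [le_div_iff₀ hcx]
      nlinarith
    have h3 : 2 * (n : ℝ) / (c * x) = n / (c * x) + n / (c * x) := by ring
    linarith
  have hmpos : (0 : ℝ) < m := lt_of_lt_of_le (by positivity) hm1
  have hm0 : 0 < m := by exact_mod_cast hmpos
  set Q : ℕ := (N - 1) / m with hQ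
  have hdm := Nat.div_add_mod (N - 1) m
  have hlt := Nat.mod_lt (N - 1) hm0
  rw [← hQ] at hdm
  -- bounds for Q
  have hQ1 : (Q : ℝ) * m ≤ (n : ℝ) ^ 2 / 2 := by
    have h1 : Q * m ≤ N := by
      have : Q * m = m * Q := mul_comm _ _
      omega
    have h2 : (Q : ℝ) * m ≤ N := by exact_mod_cast h1
    linarith
  have hQ2 : (n : ℝ) ^ 2 / 4 ≤ (Q + 1) * m := by
    have h1 : N ≤ (Q + 1) * m := by
      have : N - 1 < (Q + 1) * m := by nlinarith
      omega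
    have h2 : (N : ℝ) ≤ (Q + 1) * m := by exact_mod_cast h1
    linarith
  have hQ3 : (Q : ℝ) ≤ c * (n * x) / 2 := by
    have h1 : (Q : ℝ) * (n / (c * x)) ≤ (n : ℝ) ^ 2 / 2 :=
      (mul_le_mul_of_nonneg_left hm1 (by positivity)).trans hQ1
    rw [mul_div_assoc', div_le_iff₀ hcx] at h1
    have h2 : (Q : ℝ) * n ≤ (c * (n * x) / 2) * n := by nlinarith
    exact le_of_mul_le_mul_right h2 hnpos
  have hQ4 : c * (n * x) / 8 ≤ Q + 1 := by
    have h1 : (n : ℝ) ^ 2 / 4 ≤ (Q + 1) * (2 * n / (c * x)) :=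
      hQ2.trans (mul_le_mul_of_nonneg_left hm2 (by positivity))
    rw [mul_div_assoc', le_div_iff₀ hcx] at h1
    have h2 : (c * (n * x) / 8) * n ≤ (Q + 1) * n := by nlinarith
    exact le_of_mul_le_mul_right h2 hnpos
  have hcnx : 32 ≤ c * (n * x) := by
    have h1 : (1 : ℝ) ≤ n := by exact_mod_cast hn0
    nlinarith
  have hQ5 : 2 ≤ Q := by
    have : (2 : ℝ) < Q + 1 := by linarith
    have h2 : 2 < Q + 1 := by exact_mod_cast this
    omega
  -- the bias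
  obtain ⟨b, hb⟩ : ∃ b, Q = b + 1 := ⟨Q - 1, by omega⟩
  have hbR : (Q : ℝ) = b + 1 := by rw [hb]; push_cast; ring
  have hb1 : c * (n * x) / 16 ≤ b := by linarith
  have hb2 : (b : ℝ) ≤ c * (n * x) / 2 := by linarith
  have hbn : (n : ℝ) ≤ b := by
    have : (n : ℝ) * 16 ≤ c * (n * x) := by
      have h1 : 16 ≤ c * x := by linarith
      nlinarith
    linarith
  have hbn' : n ≤ b := by exact_mod_cast hbn
  have hbpos : (0 : ℝ) < b := by linarith
  refine ⟨b, by linarith, ?_⟩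
  have hβ := beta_ge (k := k) hn0 hbn'
  rw [← hκ] at hβ
  have hβ0 : 0 < (n : ℝ) / (κ * b) := by positivity
  -- b ^ (k - 1) is small
  have hbk : (b : ℝ) ^ (k - 1) ≤ c / 2 * (n : ℝ) ^ k := by
    calc (b : ℝ) ^ (k - 1) ≤ (c * (n * x) / 2) ^ (k - 1) :=
          pow_le_pow_left₀ hbpos.le hb2 _
      _ = (c / 2) ^ (k - 1) * ((n : ℝ) ^ (k - 1) * x ^ (k - 1)) := by
          rw [← mul_pow, ← mul_pow]; ring
      _ = (c / 2) ^ (k - 1) * (n : ℝ) ^ k := by
          rw [hxn, ← pow_succ, show k - 1 + 1 = k by omega]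
      _ ≤ (c / 2) ^ 1 * (n : ℝ) ^ k := by
          apply mul_le_mul_of_nonneg_right _ (by positivity)
          exact pow_le_pow_of_le_one (by positivity) (by linarith) (by omega)
      _ = c / 2 * (n : ℝ) ^ k := by rw [pow_one]
  have hA' : 2 * (b : ℝ) ≤ ((n : ℝ) / (4 * k)) ^ 2 * (n / (κ * b)) ^ (k - 2) := by
    rw [div_pow (n : ℝ) (κ * b), mul_div_assoc', le_div_iff₀ (by positivity)]
    calc 2 * (b : ℝ) * (κ * b) ^ (k - 2) = 2 * κ ^ (k - 2) * (b : ℝ) ^ (k - 1) := by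
          rw [mul_pow, show k - 1 = (k - 2) + 1 by omega, pow_succ]; ring
      _ ≤ 2 * κ ^ (k - 2) * (c / 2 * (n : ℝ) ^ k) :=
          mul_le_mul_of_nonneg_left hbk (by positivity)
      _ = γ ^ 2 * (n : ℝ) ^ k := by
          rw [hc]; field_simp
      _ = ((n : ℝ) / (4 * k)) ^ 2 * (n : ℝ) ^ (k - 2) := by
          rw [hγ, show k = (k - 2) + 2 by omega, pow_add]
          simp only [Nat.add_sub_cancel]
          ring
  have hA : 2 * (b : ℝ) ≤ ((n : ℝ) / (4 * k)) ^ 2 * beta k n b ^ (k - 2) := by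
    refine hA'.trans (mul_le_mul_of_nonneg_left ?_ (by positivity))
    exact pow_le_pow_left₀ hβ0.le hβ _
  have hmκ : (m : ℝ) ≤ 2 * n / κ := by
    refine hm2.trans ?_
    apply div_le_div_of_nonneg_left (by positivity) hκpos
    linarith
  refine enforcer_num (r := (N - 1) % m + 1) (by omega) hnk (by omega)
    ⟨m, ?_⟩ hA ?_
  · rw [← hN, ← hb]; omega
  · have h1 : (((N - 1) % m + 1 : ℕ) : ℝ) ≤ m := by exact_mod_cast hlt
    calc (((N - 1) % m + 1 : ℕ) : ℝ) ≤ m := h1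
      _ ≤ 2 * n / κ := hmκ
      _ = 2 * (b : ℝ) * (n / (κ * b)) := by field_simp
      _ ≤ (((n : ℝ) / (4 * k)) ^ 2 * beta k n b ^ (k - 2)) * beta k n b :=
          mul_le_mul hA hβ hβ0.le (by linarith)
      _ = ((n : ℝ) / (4 * k)) ^ 2 * beta k n b ^ (k - 1) := by
          rw [show k - 1 = (k - 2) + 1 by omega, pow_succ]; ring

/-- For every `b` up to order `n ^ ((k + 1) / k)` Enforcer wins. -/
lemma enforcer_small {k : ℕ} (hk : 3 ≤ k) : ∃ c : ℝ, 0 < c ∧ ∃ x₀ : ℝ, ∀ (n : ℕ) (x : ℝ),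
    x₀ ≤ x → x ^ k = n → ∀ b : ℕ, 1 ≤ b → (b : ℝ) ≤ c * (n * x) → EnforcerWins k n b := by
  set κ : ℝ := 4 + 8 * (k : ℝ) ^ 2 with hκ
  have hκ1 : (1 : ℝ) ≤ κ := by rw [hκ]; nlinarith [sq_nonneg (k : ℝ)]
  have hκpos : (0 : ℝ) < κ := by linarith
  set γ : ℝ := 1 / (4 * (k : ℝ)) with hγ
  have hk3 : (3 : ℝ) ≤ k := by exact_mod_cast hk
  have hγpos : 0 < γ := by rw [hγ]; positivity
  have hγ1 : γ ≤ 1 := by
    rw [hγ, div_le_one (by positivity)]
    linarith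
  have hκp : (1 : ℝ) ≤ κ ^ (k - 1) := one_le_pow₀ hκ1
  set c : ℝ := γ ^ 2 / (2 * κ ^ (k - 1)) with hc
  have hcpos : 0 < c := by rw [hc]; positivity
  have hc1 : c ≤ 1 := by
    rw [hc, div_le_one (by positivity)]
    have : γ ^ 2 ≤ 1 := pow_le_one₀ hγpos.le hγ1
    linarith
  refine ⟨c, hcpos, 1 / c + 4 * k * (k + 1) + 8, fun n x hx hxn b hb1 hb2 => ?_⟩
  have hA0 : 0 ≤ 1 / c := by positivity
  have hC0 : (0 : ℝ) ≤ 4 * k * (k + 1) := by positivity
  have hx8 : 8 ≤ x := by linarith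
  have hxpos : 0 < x := by linarith
  have hxc : 1 / c ≤ x := by linarith
  have hnx : x ^ 1 ≤ n := by
    rw [← hxn]
    exact pow_le_pow_right₀ (by linarith) (by omega)
  rw [pow_one] at hnx
  have hnpos : (0 : ℝ) < n := by linarith
  have hn0 : 0 < n := by exact_mod_cast hnpos
  have hn8 : 8 ≤ n := by
    have : (8 : ℝ) ≤ n := by linarith
    exact_mod_cast this
  have hnk : 4 * k * (k + 1) ≤ n := by
    have : 4 * (k : ℝ) * (k + 1) ≤ n := by linarith
    exact_mod_cast this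
  obtain ⟨hN1, hN2⟩ := cast_card_board hn8
  set N : ℕ := (board n).card with hN
  have hNpos : 1 ≤ N := by
    have : (1 : ℝ) ≤ N := by nlinarith
    exact_mod_cast this
  have hb1R : (1 : ℝ) ≤ b := by exact_mod_cast hb1
  have hbpos : (0 : ℝ) < b := by linarith
  have hβpos := beta_pos (k := k) (b := b) hn0
  have hβle := beta_le (k := k) (b := b) hn0
  have key : 2 * (b : ℝ) ≤ ((n : ℝ) / (4 * k)) ^ 2 * beta k n b ^ (k - 1) := by
    rcases le_total b n with hbn | hbn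
    · have hbnR : (b : ℝ) ≤ n := by exact_mod_cast hbn
      have hβ := beta_ge' (k := k) hn0 hbn
      rw [← hκ] at hβ
      have h1 : (1 / κ) ^ (k - 1) ≤ beta k n b ^ (k - 1) :=
        pow_le_pow_left₀ (by positivity) hβ _
      have h2 : 1 ≤ c * n := by
        rw [div_le_iff₀ hcpos] at hxc
        nlinarith
      calc 2 * (b : ℝ) ≤ 2 * n := by linarith
        _ ≤ 2 * n * (c * n) := by nlinarith
        _ = ((n : ℝ) / (4 * k)) ^ 2 * (1 / κ) ^ (k - 1) := by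
            rw [hc, hγ, one_div_pow κ]
            field_simp
        _ ≤ _ := mul_le_mul_of_nonneg_left h1 (by positivity)
    · have hβ := beta_ge (k := k) hn0 hbn
      rw [← hκ] at hβ
      have hβ0 : 0 < (n : ℝ) / (κ * b) := by positivity
      have h1 : (n / (κ * b)) ^ (k - 1) ≤ beta k n b ^ (k - 1) :=
        pow_le_pow_left₀ hβ0.le hβ _
      have hbk : (b : ℝ) ^ k ≤ c * (n : ℝ) ^ (k + 1) := by
        calc (b : ℝ) ^ k ≤ (c * (n * x)) ^ k := pow_le_pow_left₀ hbpos.le hb2 _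
          _ = c ^ k * (n : ℝ) ^ (k + 1) := by
              rw [mul_pow, mul_pow, hxn, pow_succ]
          _ ≤ c ^ 1 * (n : ℝ) ^ (k + 1) := by
              apply mul_le_mul_of_nonneg_right _ (by positivity)
              exact pow_le_pow_of_le_one (by positivity) (by linarith) (by omega)
          _ = c * (n : ℝ) ^ (k + 1) := by rw [pow_one]
      refine le_trans ?_ (mul_le_mul_of_nonneg_left h1 (by positivity))
      rw [div_pow (n : ℝ) (κ * b), mul_div_assoc', le_div_iff₀ (by positivity)]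
      calc 2 * (b : ℝ) * (κ * b) ^ (k - 1) = 2 * κ ^ (k - 1) * (b : ℝ) ^ k := by
            rw [mul_pow, show k = (k - 1) + 1 by omega, pow_succ (b : ℝ)]
            simp only [Nat.add_sub_cancel]; ring
        _ ≤ 2 * κ ^ (k - 1) * (c * (n : ℝ) ^ (k + 1)) :=
            mul_le_mul_of_nonneg_left hbk (by positivity)
        _ = γ ^ 2 * (n : ℝ) ^ (k + 1) := by
            rw [hc]; field_simp
        _ = ((n : ℝ) / (4 * k)) ^ 2 * (n : ℝ) ^ (k - 1) := by
            rw [hγ, show k + 1 = (k - 1) + 2 by omega, pow_add]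
            ring
  have hA : 2 * (b : ℝ) ≤ ((n : ℝ) / (4 * k)) ^ 2 * beta k n b ^ (k - 2) := by
    refine key.trans (mul_le_mul_of_nonneg_left ?_ (by positivity))
    exact pow_le_pow_of_le_one hβpos.le (by linarith) (by omega)
  have hdm := Nat.div_add_mod (N - 1) (b + 1)
  have hlt := Nat.mod_lt (N - 1) (Nat.succ_pos b)
  refine enforcer_num (r := (N - 1) % (b + 1) + 1) (by omega) hnk (by omega)
    ⟨(N - 1) / (b + 1), ?_⟩ hA ?_
  · rw [← hN, mul_comm]; omega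
  · have h1 : (((N - 1) % (b + 1) + 1 : ℕ) : ℝ) ≤ b + 1 := by exact_mod_cast hlt
    linarith

/-- For some `b` of order `n ^ ((k + 1) / k)` Avoider wins. -/
lemma avoider_small {k : ℕ} (hk : 3 ≤ k) (n : ℕ) (x : ℝ) (hx : 32 ≤ x) (hxn : x ^ k = n) :
    ∃ b : ℕ, 1 ≤ b ∧ (b : ℝ) ≤ 16 * (n * x) ∧ AvoiderWins k n b := by
  have hxpos : 0 < x := by linarith
  have hnx : x ^ 2 ≤ n := by
    rw [← hxn]
    exact pow_le_pow_right₀ (by linarith) (by omega)
  have hxn' : x ≤ n := by nlinarith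
  have hnpos : (0 : ℝ) < n := by linarith
  have hn0 : 0 < n := by exact_mod_cast hnpos
  have hn8 : 8 ≤ n := by
    have : (8 : ℝ) ≤ n := by linarith
    exact_mod_cast this
  obtain ⟨hN1, hN2⟩ := cast_card_board hn8
  set N : ℕ := (board n).card with hN
  have hNpos : 1 ≤ N := by
    have : (1 : ℝ) ≤ N := by nlinarith
    exact_mod_cast this
  set m : ℕ := ⌊(n : ℝ) / (16 * x)⌋₊ with hm
  have hm1 : (m : ℝ) ≤ n / (16 * x) := Nat.floor_le (by positivity)
  have hm2 : (n : ℝ) / (32 * x) ≤ m := by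
    have h1 : (n : ℝ) / (16 * x) < m + 1 := Nat.lt_floor_add_one _
    have h2 : 1 ≤ (n : ℝ) / (32 * x) := by
      rw [le_div_iff₀ (by positivity)]
      nlinarith
    have h3 : (n : ℝ) / (16 * x) = n / (32 * x) + n / (32 * x) := by
      field_simp; norm_num
    linarith
  have hmpos : (0 : ℝ) < m := lt_of_lt_of_le (by positivity) hm2
  have hm0 : 0 < m := by exact_mod_cast hmpos
  set b : ℕ := (N - 1) / m with hb
  have hdm := Nat.div_add_mod (N - 1) m
  have hlt := Nat.mod_lt (N - 1) hm0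
  rw [← hb] at hdm
  have hb1 : (b : ℝ) * m ≤ (n : ℝ) ^ 2 / 2 := by
    have h1 : b * m ≤ N := by
      have : b * m = m * b := mul_comm _ _
      omega
    have h2 : (b : ℝ) * m ≤ N := by exact_mod_cast h1
    linarith
  have hb2 : (n : ℝ) ^ 2 / 4 ≤ (b + 1) * m := by
    have h1 : N ≤ (b + 1) * m := by
      have : N - 1 < (b + 1) * m := by nlinarith
      omega
    have h2 : (N : ℝ) ≤ (b + 1) * m := by exact_mod_cast h1
    linarith
  have hb3 : (b : ℝ) ≤ 16 * (n * x) := by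
    have h1 : (b : ℝ) * (n / (32 * x)) ≤ (n : ℝ) ^ 2 / 2 :=
      (mul_le_mul_of_nonneg_left hm2 (by positivity)).trans hb1
    rw [mul_div_assoc', div_le_iff₀ (by positivity)] at h1
    have h2 : (b : ℝ) * n ≤ (16 * (n * x)) * n := by nlinarith
    exact le_of_mul_le_mul_right h2 hnpos
  have hb4 : 4 * (n * x) ≤ b + 1 := by
    have h1 : (n : ℝ) ^ 2 / 4 ≤ (b + 1) * (n / (16 * x)) :=
      hb2.trans (mul_le_mul_of_nonneg_left hm1 (by positivity))
    rw [mul_div_assoc', le_div_iff₀ (by positivity)] at h1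
    have h2 : (4 * (n * x)) * n ≤ (b + 1) * n := by nlinarith
    exact le_of_mul_le_mul_right h2 hnpos
  have hmn : (m : ℝ) ≤ n := by
    refine hm1.trans ?_
    rw [div_le_iff₀ (by positivity)]
    nlinarith
  have hmb : 2 * (m : ℝ) ≤ b + 1 := by nlinarith
  have hmb' : 2 * m ≤ b + 1 := by exact_mod_cast hmb
  have hb5 : 1 ≤ b := by
    have : (1 : ℝ) < b + 1 := by nlinarith
    have : 1 < b + 1 := by exact_mod_cast this
    omega
  refine ⟨b, hb5, hb3, ?_⟩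
  set s : ℕ := (N - 1) % m with hs
  refine avoider_num (r := b + 2 + s - m) (by omega) (by omega) (Or.inr ⟨m - 1, ?_⟩) ?_
  · rw [← hN]
    obtain ⟨m', hm'⟩ : ∃ m', m = m' + 1 := ⟨m - 1, by omega⟩
    have h1 : (m' + 1) * b + s = N - 1 := by rw [← hm']; exact hdm
    rw [hm', Nat.add_sub_cancel]
    have h2 : m' * (b + 1) = m' * b + m' := by ring
    have h3 : (m' + 1) * b = m' * b + b := by ring
    omega
  · have h1 : b + 1 ≤ 2 * (b + 2 + s - m) := by omega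
    have h2 : (2 * n) ^ k * n < (b + 1) ^ k := by
      have h3 : ((2 * n : ℝ)) ^ k * n < ((b : ℝ) + 1) ^ k := by
        calc ((2 * n : ℝ)) ^ k * n < (4 * n : ℝ) ^ k * n := by
              apply mul_lt_mul_of_pos_right _ hnpos
              apply pow_lt_pow_left₀ _ (by positivity) (by omega)
              linarith
          _ = (4 * (n * x)) ^ k := by
              rw [← hxn, ← mul_pow]; ring
          _ ≤ ((b : ℝ) + 1) ^ k := pow_le_pow_left₀ (by positivity) hb4 _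
      exact_mod_cast h3
    have h4 : 2 * (n * (n * (2 * n) ^ (k - 1))) = (2 * n) ^ k * n := by
      obtain ⟨k', rfl⟩ : ∃ k', k = k' + 1 := ⟨k - 1, by omega⟩
      rw [Nat.add_sub_cancel, pow_succ]; ring
    have h5 : (b + 1) ^ k ≤ 2 * ((b + 2 + s - m) * (b + 1) ^ (k - 1)) := by
      obtain ⟨k', rfl⟩ : ∃ k', k = k' + 1 := ⟨k - 1, by omega⟩
      rw [Nat.add_sub_cancel, pow_succ]
      calc (b + 1) ^ k' * (b + 1) ≤ (b + 1) ^ k' * (2 * (b + 2 + s - m)) :=
            Nat.mul_le_mul_left _ h1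
        _ = _ := by ring
    omega

/-- The upper threshold bias has order `n ^ (k / (k - 1))`. -/
theorem fPlus_theta {k : ℕ} (hk : 3 ≤ k) : ∃ c C : ℝ, 0 < c ∧ 0 < C ∧ ∃ n₀ : ℕ, ∀ n : ℕ, n₀ ≤ n →
    c * (n : ℝ) ^ ((k : ℝ) / ((k : ℝ) - 1)) ≤ fPlus k n ∧
      (fPlus k n : ℝ) ≤ C * (n : ℝ) ^ ((k : ℝ) / ((k : ℝ) - 1)) := by
  obtain ⟨c, hc, x₀, h⟩ := enforcer_large hk
  obtain ⟨n₀, hn₀⟩ := exists_root (K := k - 1) (by omega) x₀
  refine ⟨c, 2, hc, by norm_num, max n₀ 1, fun n hn => ?_⟩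
  have hn1 : 1 ≤ n := le_trans (le_max_right _ _) hn
  have hnpos : (0 : ℝ) < n := by exact_mod_cast hn1
  set x : ℝ := (n : ℝ) ^ (((k - 1 : ℕ) : ℝ)⁻¹) with hx
  have hxn : x ^ (k - 1) = n := root_pow (by omega) n
  have hxpos : 0 < x := Real.rpow_pos_of_pos hnpos _
  have hk3 : (3 : ℝ) ≤ k := by exact_mod_cast hk
  have hpow : (n : ℝ) ^ ((k : ℝ) / ((k : ℝ) - 1)) = n * x := by
    have h1 : (k : ℝ) / ((k : ℝ) - 1) = 1 + ((k - 1 : ℕ) : ℝ)⁻¹ := by
      rw [Nat.cast_sub (by omega : 1 ≤ k)]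
      push_cast
      have : (k : ℝ) - 1 ≠ 0 := by linarith
      field_simp
      ring
    rw [h1, Real.rpow_add hnpos, Real.rpow_one]
  rw [hpow]
  have hmem : ⌊2 * (n * x)⌋₊ ∈ {t : ℕ | ∀ b : ℕ, t < b → AvoiderWins k n b} := by
    intro b hb
    apply avoider_num' (by omega)
    have h1 : 2 * (n * x) < b := Nat.lt_of_floor_lt hb
    have h2 : (2 * (n * x)) ^ (k - 1) = (n : ℝ) * (2 * n) ^ (k - 1) := by
      rw [mul_pow, mul_pow, hxn, mul_pow]; ring
    have h3 : (n : ℝ) * (2 * n) ^ (k - 1) < ((b : ℝ) + 1) ^ (k - 1) := by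
      rw [← h2]
      apply pow_lt_pow_left₀ (by linarith) (by positivity) (by omega)
    exact_mod_cast h3
  constructor
  · obtain ⟨b, hb1, hb2⟩ := h n x (hn₀ n (le_trans (le_max_left _ _) hn)) hxn
    refine hb1.trans ?_
    have h1 : fPlus k n ∈ {t : ℕ | ∀ b : ℕ, t < b → AvoiderWins k n b} := Nat.sInf_mem ⟨_, hmem⟩
    by_contra hlt
    push Not at hlt
    have h2 : fPlus k n < b := by exact_mod_cast hlt
    exact not_both (h1 b h2) hb2
  · have h1 : fPlus k n ≤ ⌊2 * (n * x)⌋₊ := Nat.sInf_le hmem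
    have h2 : (fPlus k n : ℝ) ≤ (⌊2 * (n * x)⌋₊ : ℝ) := by exact_mod_cast h1
    exact h2.trans (Nat.floor_le (by positivity))

/-- The lower threshold bias has order `n ^ ((k + 1) / k)`. -/
theorem fMinus_theta {k : ℕ} (hk : 3 ≤ k) : ∃ c C : ℝ, 0 < c ∧ 0 < C ∧ ∃ n₀ : ℕ, ∀ n : ℕ, n₀ ≤ n →
    c * (n : ℝ) ^ (((k : ℝ) + 1) / k) ≤ fMinus k n ∧
      (fMinus k n : ℝ) ≤ C * (n : ℝ) ^ (((k : ℝ) + 1) / k) := by
  obtain ⟨c, hc, x₀, h⟩ := enforcer_small hk
  obtain ⟨n₀, hn₀⟩ := exists_root (K := k) (by omega) (max x₀ (32 + 2 / c))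
  refine ⟨c / 2, 16, by positivity, by norm_num, max n₀ 1, fun n hn => ?_⟩
  have hn1 : 1 ≤ n := le_trans (le_max_right _ _) hn
  have hnpos : (0 : ℝ) < n := by exact_mod_cast hn1
  have hn1R : (1 : ℝ) ≤ n := by exact_mod_cast hn1
  have hge := hn₀ n (le_trans (le_max_left _ _) hn)
  set x : ℝ := (n : ℝ) ^ ((k : ℝ)⁻¹) with hx
  have hxn : x ^ k = n := root_pow (by omega) n
  have hxpos : 0 < x := Real.rpow_pos_of_pos hnpos _
  have hx0 : x₀ ≤ x := le_trans (le_max_left _ _) hge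
  have hx32 : 32 + 2 / c ≤ x := le_trans (le_max_right _ _) hge
  have hk3 : (3 : ℝ) ≤ k := by exact_mod_cast hk
  have hpow : (n : ℝ) ^ (((k : ℝ) + 1) / k) = n * x := by
    have h1 : ((k : ℝ) + 1) / k = 1 + (k : ℝ)⁻¹ := by
      field_simp
    rw [h1, Real.rpow_add hnpos, Real.rpow_one]
  rw [hpow]
  have h2c : 0 < 2 / c := by positivity
  obtain ⟨b₁, hb₁, hb₁', hb₁''⟩ := avoider_small hk n x (by linarith) hxn
  have hupper : ∀ t ∈ {t : ℕ | ∀ b : ℕ, 1 ≤ b → b ≤ t → EnforcerWins k n b}, t ≤ b₁ := by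
    intro t ht
    by_contra hlt
    push Not at hlt
    exact not_both hb₁'' (ht b₁ hb₁ hlt.le)
  have hbdd : BddAbove {t : ℕ | ∀ b : ℕ, 1 ≤ b → b ≤ t → EnforcerWins k n b} := ⟨b₁, hupper⟩
  have hmem : ⌊c * (n * x)⌋₊ ∈ {t : ℕ | ∀ b : ℕ, 1 ≤ b → b ≤ t → EnforcerWins k n b} := by
    intro b hb1 hb2
    refine h n x hx0 hxn b hb1 ?_
    have : (b : ℝ) ≤ (⌊c * (n * x)⌋₊ : ℝ) := by exact_mod_cast hb2
    exact this.trans (Nat.floor_le (by positivity))
  constructor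
  · have h1 : ⌊c * (n * x)⌋₊ ≤ fMinus k n := le_csSup hbdd hmem
    have h2 : (⌊c * (n * x)⌋₊ : ℝ) ≤ fMinus k n := by exact_mod_cast h1
    have h3 : c * (n * x) < ⌊c * (n * x)⌋₊ + 1 := Nat.lt_floor_add_one _
    have h4 : 2 ≤ c * (n * x) := by
      have h5 : 2 / c ≤ x := by linarith
      rw [div_le_iff₀ hc] at h5
      nlinarith
    linarith
  · have h1 : fMinus k n ≤ b₁ := csSup_le ⟨_, hmem⟩ hupper
    have h2 : (fMinus k n : ℝ) ≤ b₁ := by exact_mod_cast h1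
    linarith

end Q167.Star
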